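import Mathlib
import Pool.Agent.Lib.MP_3d3eb4_co.Defs

/-! Indivisible plexes of small order: an embedding lemma and one square for every `k`. -/

namespace PlexS

open Finset Function Pool.Agent.Lib.MP_3d3eb4_co

variable {α β ι : Type} [Fintype α] [DecidableEq α] [DecidableEq β]

/-- `h` cells on every line -/
def Reg (L : β → β → β) (h : ℕ) (Q : Finset (β × β)) : Prop :=
  (∀ r, (Q.filter fun p => p.1 = r).card = h) ∧ (∀ c, (Q.filter fun p => p.2 = c).card = h) ∧
    ∀ s, (Q.filter fun p => L p.1 p.2 = s).card = h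

/-- some latin square on `β` has an indivisible `k`-plex -/
def Occ (β : Type) [DecidableEq β] (k : ℕ) : Prop :=
  ∃ (L : β → β → β) (P : Finset (β × β)), (∀ r, Injective (L r)) ∧
    (∀ c, Injective fun r => L r c) ∧ Reg L k P ∧ ∀ h, 0 < h → h < k → ∀ Q ⊆ P, ¬ Reg L h Q

/-- cells of a subsquare -/
def pull (f : α → β) (Q : Finset (β × β)) : Finset (α × α) :=
  univ.filter fun p => (f p.1, f p.2) ∈ Q

omit [DecidableEq α] in
theorem mem_pull {f : α → β} {Q : Finset (β × β)} {p : α × α} :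
    p ∈ pull f Q ↔ (f p.1, f p.2) ∈ Q := by simp [pull]

theorem card_pull {f : α → β} (hf : Injective f) (Q : Finset (β × β)) (φ : α × α → α)
    (φ' : β × β → β) (h1 : ∀ p : α × α, (f p.1, f p.2) ∈ Q → φ' (f p.1, f p.2) = f (φ p)) (r : α)
    (h2 : ∀ q ∈ Q, φ' q = f r → ∃ p : α × α, q = (f p.1, f p.2)) :
    ((pull f Q).filter fun p => φ p = r).card = (Q.filter fun q => φ' q = f r).card := by
  refine card_bij (fun p _ => (f p.1, f p.2)) (fun p hp => ?_) (fun p _ p' _ h => ?_)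
    fun q hq => ?_
  · obtain ⟨a, b⟩ := mem_filter.1 hp
    exact mem_filter.2 ⟨mem_pull.1 a, by rw [h1 p (mem_pull.1 a), b]⟩
  · exact Prod.ext (hf (congrArg Prod.fst h)) (hf (congrArg Prod.snd h))
  · obtain ⟨a, b⟩ := mem_filter.1 hq
    obtain ⟨p, rfl⟩ := h2 q a b
    exact ⟨p, mem_filter.2 ⟨mem_pull.2 a, hf (by rw [← h1 p a, b])⟩, rfl⟩

theorem Reg.pull {f : α → β} (hf : Injective f) {L : α → α → α} {L' : β → β → β} {h : ℕ}
    {Q : Finset (β × β)} (hQ : Reg L' h Q) (h1 : ∀ a b, L' (f a) (f b) = f (L a b))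
    (h2 : ∀ q ∈ Q, ∀ r, q.1 = f r ∨ q.2 = f r ∨ L' q.1 q.2 = f r →
      ∃ p : α × α, q = (f p.1, f p.2)) : Reg L h (pull f Q) :=
  ⟨fun r => (card_pull hf Q Prod.fst Prod.fst (fun _ _ => rfl) r
      fun q hq e => h2 q hq r (.inl e)).trans (hQ.1 _),
    fun r => (card_pull hf Q Prod.snd Prod.snd (fun _ _ => rfl) r
      fun q hq e => h2 q hq r (.inr (.inl e))).trans (hQ.2.1 _),
    fun r => (card_pull hf Q (fun p => L p.1 p.2) (fun p => L' p.1 p.2) (fun _ _ => h1 _ _) r
      fun q hq e => h2 q hq r (.inr (.inr e))).trans (hQ.2.2 _)⟩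

theorem Occ.equiv [Fintype β] {k : ℕ} (h : Occ α k) (e : α ≃ β) : Occ β k := by
  obtain ⟨L, P, h1, h2, h3, h4⟩ := h
  refine ⟨fun r c => e (L (e.symm r) (e.symm c)), pull e.symm P,
    fun r => e.injective.comp ((h1 _).comp e.symm.injective),
    fun c => e.injective.comp ((h2 _).comp e.symm.injective),
    h3.pull e.symm.injective (by simp) fun q _ _ _ => ⟨(e q.1, e q.2), by simp⟩,
    fun h a b Q hQ hR => h4 h a b (pull e Q) (fun p hp => ?_)
      (hR.pull e.injective (by simp) fun q _ _ _ => ⟨(e.symm q.1, e.symm q.2), by simp⟩)⟩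
  simpa using mem_pull.1 (hQ (mem_pull.1 hp))

theorem sum_reg {M : Type} [AddCommMonoid M] (Q : Finset (α × α)) (φ : α × α → α) (h : ℕ)
    (hQ : ∀ r, (Q.filter fun p => φ p = r).card = h) (a : α → M) :
    ∑ p ∈ Q, a (φ p) = h • ∑ i, a i := by
  rw [← sum_fiberwise_of_maps_to (s := Q) (t := univ) (g := φ) (fun _ _ => mem_univ _), smul_sum]
  refine sum_congr rfl fun r _ => ?_
  rw [sum_congr rfl (fun p hp => by rw [(mem_filter.1 hp).2]), sum_const, hQ]

theorem plex_iff {n h : ℕ} {L : Fin n → Fin n → Fin n} {Q : Finset (Fin n × Fin n)} :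
    IsPlex L h Q ↔ Reg L h Q :=
  ⟨fun H => H.2, fun H => ⟨by simpa [mul_comm] using sum_reg Q Prod.fst h H.1 fun _ => (1 : ℕ), H⟩⟩

theorem occ_iff {n k : ℕ} : Occ (Fin n) k ↔
    ∃ (L : Fin n → Fin n → Fin n) (P : Finset (Fin n × Fin n)),
      IsLatinSquare L ∧ IsIndivisiblePlex L k P := by
  simp only [Occ, IsLatinSquare, IsIndivisiblePlex, plex_iff, ← Finite.injective_iff_bijective,
    and_assoc]

/-- the union of the graphs of a family of maps -/
def gr [Fintype ι] (φ : ι → α → α) : Finset (α × α) :=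
  univ.image fun x : ι × α => (x.2, φ x.1 x.2)

theorem mem_gr [Fintype ι] {φ : ι → α → α} {q : α × α} : q ∈ gr φ ↔ ∃ j, q.2 = φ j q.1 := by
  simp only [gr, mem_image, mem_univ, true_and, Prod.exists]
  exact ⟨fun ⟨j, _, h⟩ => ⟨j, h ▸ rfl⟩, fun ⟨j, h⟩ => ⟨j, q.1, by rw [← h]⟩⟩

theorem card_gr [Fintype ι] (φ : ι → α → α) (hφ : ∀ g i j, φ i g = φ j g → i = j)
    (ψ : α × α → α) (s : α) : (((gr φ).filter fun q => ψ q = s).card : ℤ) =
      ∑ j, ∑ g, if ψ (g, φ j g) = s then 1 else 0 := by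
  rw [card_filter, gr, sum_image, Fintype.sum_prod_type]
  · push_cast; rfl
  · rintro ⟨i, g⟩ - ⟨j, g'⟩ - h
    obtain ⟨rfl, h'⟩ := Prod.ext_iff.1 h
    exact Prod.ext (hφ _ _ _ h') rfl

theorem one_of_inj {f : α → α} (hf : Injective f) (s : α) :
    ∑ g, (if f g = s then 1 else 0 : ℤ) = 1 := by
  rw [(Finite.injective_iff_bijective.1 hf).sum_comp fun x => if x = s then (1 : ℤ) else 0]
  simp

theorem card_gr' [Fintype ι] (φ : ι → α → α) (hφ : ∀ g i j, φ i g = φ j g → i = j)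
    (ψ : α × α → α) (hψ : ∀ j, Injective fun g => ψ (g, φ j g)) (s : α) :
    ((gr φ).filter fun q => ψ q = s).card = Fintype.card ι := by
  have := card_gr φ hφ ψ s
  simp only [one_of_inj (hψ _), sum_const, card_univ, nsmul_eq_mul, mul_one] at this
  exact_mod_cast this

theorem two_inj {t : ℕ} (ht : Odd t) {x y : ZMod t} (h : x + x = y + y) : x = y := by
  have : IsUnit (2 : ZMod t) := by
    exact_mod_cast (ZMod.isUnit_iff_coprime 2 t).2 (Nat.coprime_two_left.2 ht)
  exact this.mul_left_cancel (by linear_combination h)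

open Classical in
/-- prolongation of a cyclic square along diagonals, with `L` in the corner -/
noncomputable def pro {t : ℕ} (L : α → α → α) (d : α → ZMod t) :
    α ⊕ ZMod t → α ⊕ ZMod t → α ⊕ ZMod t
  | .inl a, .inl b => .inl (L a b)
  | .inl a, .inr c => .inr (c + c - d a)
  | .inr r, .inl a => .inr (r + r + d a)
  | .inr r, .inr c => if h : ∃ a, c = r + d a then .inl h.choose else .inr (r + c)

theorem Occ.embed {k t : ℕ} (h : Occ α k) (ht : Odd t) (hc : Fintype.card α + k ≤ t) :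
    Occ (α ⊕ ZMod t) k := by
  classical
  have : NeZero t := ⟨by rintro rfl; simp at ht⟩
  obtain ⟨L, P, h1, h2, h3, h4⟩ := h
  obtain ⟨D⟩ : Nonempty (α ⊕ Fin k ↪ ZMod t) :=
    Embedding.nonempty_of_card_le (by simpa [ZMod.card] using hc)
  obtain ⟨d, hd⟩ : ∃ d : α → ZMod t, d = fun a => D (.inl a) := ⟨_, rfl⟩
  have d1 : Injective d := hd ▸ D.injective.comp Sum.inl_injective
  obtain ⟨φ, hφ⟩ : ∃ φ : Fin k → ZMod t → ZMod t, φ = fun j r => r + D (.inr j) := ⟨_, rfl⟩
  have f1 : ∀ g i j, φ i g = φ j g → i = j := fun g i j e => by simpa [hφ] using e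
  have f2 : ∀ r c, (r, c) ∈ gr φ → pro L d (.inr r) (.inr c) = .inr (r + c) := fun r c e => by
    obtain ⟨j, hj⟩ := mem_gr.1 e
    refine dif_neg fun ⟨a, ha⟩ => ?_
    simp only [hφ, hd] at hj ha
    simpa using hj.symm.trans ha
  obtain ⟨P', hP⟩ : ∃ P' : Finset ((α ⊕ ZMod t) × (α ⊕ ZMod t)), ∀ q, q ∈ P' ↔
      (∃ p ∈ P, q = (.inl p.1, .inl p.2)) ∨ ∃ p ∈ gr φ, q = (.inr p.1, .inr p.2) :=
    ⟨univ.filter fun q => (∃ p ∈ P, q = (.inl p.1, .inl p.2)) ∨
      ∃ p ∈ gr φ, q = (.inr p.1, .inr p.2), by simp only [mem_filter, mem_univ, true_and,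
        implies_true]⟩
  have p1 : pull Sum.inl P' = P := by ext p; simp [mem_pull, hP, Prod.ext_iff]
  have p2 : pull Sum.inr P' = gr φ := by ext p; simp [mem_pull, hP, Prod.ext_iff]
  have p3 : ∀ q ∈ P', ∀ r, q.1 = .inl r ∨ q.2 = .inl r ∨ pro L d q.1 q.2 = .inl r →
      ∃ p : α × α, q = (.inl p.1, .inl p.2) := fun q hq r e => by
    rcases (hP q).1 hq with ⟨p, -, rfl⟩ | ⟨p, a, rfl⟩
    · exact ⟨p, rfl⟩
    · simp [f2 _ _ a] at e
  have p4 : ∀ q ∈ P', ∀ r, q.1 = .inr r ∨ q.2 = .inr r ∨ pro L d q.1 q.2 = .inr r →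
      ∃ p : ZMod t × ZMod t, q = (.inr p.1, .inr p.2) := fun q hq r e => by
    rcases (hP q).1 hq with ⟨p, -, rfl⟩ | ⟨p, a, rfl⟩
    · simp [pro] at e
    · exact ⟨p, rfl⟩
  refine ⟨pro L d, P', ?_, ?_, ⟨?_, ?_, ?_⟩, fun h a b Q hQ hR => h4 h a b (pull Sum.inl Q)
    (fun p hp => p1 ▸ mem_pull.2 (hQ (mem_pull.1 hp)))
    (hR.pull Sum.inl_injective (fun _ _ => rfl) fun q hq => p3 q (hQ hq))⟩
  · rintro (a | r) (b | c) (b' | c') e <;> simp only [pro] at e
    · rw [h1 a (Sum.inl_injective e)]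
    · cases e
    · cases e
    · rw [two_inj ht (sub_left_injective (Sum.inr_injective e))]
    · rw [d1 (add_left_cancel (Sum.inr_injective e))]
    · split_ifs at e with h
      exact absurd ⟨b, by linear_combination -(Sum.inr_injective e)⟩ h
    · split_ifs at e with h
      exact absurd ⟨b', by linear_combination Sum.inr_injective e⟩ h
    · split_ifs at e with h h' h'
      · rw [h.choose_spec, h'.choose_spec, Sum.inl_injective e]
      · rw [add_left_cancel (Sum.inr_injective e)]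
  · rintro (b | c) (a | r) (a' | r') e <;> simp only [pro] at e
    · rw [h2 b (Sum.inl_injective e)]
    · cases e
    · cases e
    · rw [two_inj ht (add_right_cancel (Sum.inr_injective e))]
    · rw [d1 (sub_right_injective (Sum.inr_injective e))]
    · split_ifs at e with h
      exact absurd ⟨a, by linear_combination Sum.inr_injective e⟩ h
    · split_ifs at e with h
      exact absurd ⟨a', by linear_combination -(Sum.inr_injective e)⟩ h
    · split_ifs at e with h h' h'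
      · have e1 := h.choose_spec
        rw [Sum.inl_injective e] at e1
        rw [add_right_cancel (e1.symm.trans h'.choose_spec)]
      · rw [add_right_cancel (Sum.inr_injective e)]
  · rintro (a | r)
    · rw [← card_pull Sum.inl_injective P' Prod.fst Prod.fst (fun _ _ => rfl) a
        fun q hq e => p3 q hq a (.inl e), p1, h3.1]
    · rw [← card_pull Sum.inr_injective P' Prod.fst Prod.fst (fun _ _ => rfl) r
        fun q hq e => p4 q hq r (.inl e), p2, card_gr' φ f1 _ (fun _ _ _ e => e), Fintype.card_fin]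
  · rintro (a | r)
    · rw [← card_pull Sum.inl_injective P' Prod.snd Prod.snd (fun _ _ => rfl) a
        fun q hq e => p3 q hq a (.inr (.inl e)), p1, h3.2.1]
    · rw [← card_pull Sum.inr_injective P' Prod.snd Prod.snd (fun _ _ => rfl) r
        fun q hq e => p4 q hq r (.inr (.inl e)), p2,
        card_gr' φ f1 _ (fun _ _ _ e => by simpa [hφ] using e), Fintype.card_fin]
  · rintro (a | r)
    · rw [← card_pull Sum.inl_injective P' (fun p => L p.1 p.2) (fun p => pro L d p.1 p.2)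
        (fun _ _ => rfl) a fun q hq e => p3 q hq a (.inr (.inr e)), p1, h3.2.2]
    · rw [← card_pull Sum.inr_injective P' (fun p => p.1 + p.2) (fun p => pro L d p.1 p.2)
        (fun p hp => f2 _ _ (p2 ▸ mem_pull.2 hp)) r fun q hq e => p4 q hq r (.inr (.inr e)), p2,
        card_gr' φ f1 _ (fun _ _ _ e => two_inj ht (by
          simp only [hφ] at e; linear_combination e)), Fintype.card_fin]

theorem occ_add {m k t : ℕ} (h : Occ (Fin m) k) (ht : Odd t) (hc : m + k ≤ t) :
    Occ (Fin (m + t)) k := by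
  have : NeZero t := ⟨by rintro rfl; simp at ht⟩
  exact (h.embed ht (by simpa using hc)).equiv
    (Fintype.equivFinOfCardEq (by simp [ZMod.card]))

theorem nz {N a : ℕ} (h0 : 0 < a) (h : a < N) : (a : ZMod N) ≠ 0 := fun e =>
  absurd (Nat.le_of_dvd h0 ((ZMod.natCast_eq_zero_iff a N).1 e)) (not_le.2 h)

/-- the cycle `0 ↦ e ↦ -e ↦ 0` -/
def cyc {G : Type} [AddCommGroup G] [DecidableEq G] (e p : G) : G :=
  Equiv.swap 0 (-e) (Equiv.swap 0 e p)

section
variable {G : Type} [AddCommGroup G] [DecidableEq G] {e p : G}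

theorem cyc_inj : Injective (cyc e) := (Equiv.injective _).comp (Equiv.injective _)

theorem cyc_zero (h : e ≠ 0) (h' : e ≠ -e) : cyc e 0 = e := by
  rw [cyc, Equiv.swap_apply_left, Equiv.swap_apply_of_ne_of_ne h h']

theorem cyc_self : cyc e e = -e := by rw [cyc, Equiv.swap_apply_right, Equiv.swap_apply_left]

theorem cyc_neg (h : e ≠ 0) (h' : e ≠ -e) : cyc e (-e) = 0 := by
  rw [cyc, Equiv.swap_apply_of_ne_of_ne (neg_ne_zero.2 h) h'.symm, Equiv.swap_apply_right]

theorem cyc_of_ne (h0 : p ≠ 0) (h1 : p ≠ e) (h2 : p ≠ -e) : cyc e p = p := by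
  rw [cyc, Equiv.swap_apply_of_ne_of_ne h0 h1, Equiv.swap_apply_of_ne_of_ne h0 h2]

theorem sum_cyc [Fintype G] (h : e ≠ 0) (h' : e ≠ -e) (F : G → ℤ) :
    ∑ p, F (p + cyc e p) = ∑ p, F (p + p) + (F e + F (-e) - (F (e + e) + F (-(e + e)))) := by
  rw [← sub_eq_iff_eq_add', ← sum_sub_distrib, ← sum_subset (subset_univ {0, e, -e}),
    sum_insert (by simp [h, h.symm]), sum_pair h', cyc_zero h h', cyc_self, cyc_neg h h']
  · simp only [zero_add, add_zero, add_neg_cancel, neg_add]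
    ring
  · intro p _ hp
    simp only [mem_insert, mem_singleton, not_or] at hp
    rw [cyc_of_ne hp.1 hp.2.1 hp.2.2, sub_self]

end

theorem exists_lab (k N : ℕ) (hk : 1 ≤ k) (hN : N = 2 ^ k + 1) : ∃ g : ZMod N → ℤ, g 0 = 0 ∧
    ∀ i, 1 ≤ i → i ≤ k → g (2 ^ i) + g (-2 ^ i) = i := by
  refine ⟨fun w => if Even w.val then (Nat.log 2 w.val : ℕ) else 0, by simp, fun i h1 h2 => ?_⟩
  have : NeZero N := ⟨hN ▸ Nat.succ_ne_zero _⟩
  have a1 : 2 ^ i ≤ 2 ^ k := Nat.pow_le_pow_right (by norm_num) h2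
  have a2 : ((2 : ZMod N) ^ i).val = 2 ^ i := by
    exact_mod_cast ZMod.val_cast_of_lt (n := N) (a := 2 ^ i) (by omega)
  have a3 : (2 : ZMod N) ^ i ≠ 0 := by
    exact_mod_cast nz (N := N) (a := 2 ^ i) (by positivity) (by omega)
  have a4 : Even (2 ^ i) := (Nat.even_pow' (by omega)).2 even_two
  have a5 : Even (2 ^ k) := (Nat.even_pow' (by omega)).2 even_two
  have a6 : ¬ Even (N - 2 ^ i) := by
    obtain ⟨u, hu⟩ := a4
    obtain ⟨v, hv⟩ := a5
    rw [Nat.even_iff]
    omega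
  simp only [ZMod.neg_val, a3, if_false, a2, a4, a6, if_true, Nat.log_pow (show 1 < 2 by norm_num),
    add_zero]

theorem base (k N : ℕ) [NeZero N] (hk : 1 ≤ k) (hN : N = 2 ^ k + 1) :
    Occ (ZMod N × ZMod N) k := by
  classical
  have hodd : Odd N := hN ▸ ((Nat.even_pow' (by omega)).2 even_two).add_one
  have hkN : k < N := by have := Nat.lt_two_pow_self (n := k); omega
  have e0 : ∀ j : ℕ, (2 : ZMod N) ^ j ≠ 0 := fun j h => by
    induction j with
    | zero => exact nz (N := N) one_pos (by omega) (by simpa using h)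
    | succ j ih => exact ih (two_inj hodd (by rw [pow_succ] at h; linear_combination h))
  have e1 : ∀ i < k, ∀ j < k, (2 : ZMod N) ^ i ≠ -2 ^ j := fun i hi j hj h => by
    obtain ⟨k, rfl⟩ : ∃ k', k = k' + 1 := ⟨k - 1, by omega⟩
    have a1 : 2 ^ i ≤ 2 ^ k := Nat.pow_le_pow_right (by norm_num) (by omega)
    have a2 : 2 ^ j ≤ 2 ^ k := Nat.pow_le_pow_right (by norm_num) (by omega)
    refine nz (N := N) (a := 2 ^ i + 2 ^ j) (by positivity) (by rw [hN, pow_succ]; omega) ?_
    push_cast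
    linear_combination h
  have e2 : (2 : ZMod N) ^ k = -1 := by
    have : ((2 ^ k + 1 : ℕ) : ZMod N) = 0 := hN ▸ ZMod.natCast_self N
    push_cast at this
    linear_combination this
  have e3 : ∀ i j : Fin k, ((i : ℕ) : ZMod N) = (j : ℕ) → i = j := fun i j h => by
    have := congrArg ZMod.val h
    rw [ZMod.val_cast_of_lt (i.2.trans hkN), ZMod.val_cast_of_lt (j.2.trans hkN)] at this
    exact Fin.ext this
  obtain ⟨φ, hφ⟩ : ∃ φ : Fin k → ZMod N × ZMod N → ZMod N × ZMod N, ∀ (j : Fin k) x, φ j x =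
      (if x.2 = (j : ℕ) then cyc (2 ^ (j : ℕ)) x.1 else x.1, x.2 - (j : ℕ) - (j : ℕ)) :=
    ⟨_, fun _ _ => rfl⟩
  have f1 : ∀ g i j, φ i g = φ j g → i = j := fun g i j h => e3 _ _ (two_inj hodd (by
    have := congrArg Prod.snd h
    simp only [hφ] at this
    linear_combination -this))
  have f2 : ∀ j, Injective (φ j) := by
    rintro j ⟨p, x⟩ ⟨p', x'⟩ h
    simp only [hφ, Prod.mk.injEq, sub_left_inj] at h
    obtain ⟨h, rfl⟩ := h
    split_ifs at h
    · rw [cyc_inj h]
    · rw [h]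
  have f3 : ∀ (F : ZMod N × ZMod N → ℤ) (j : Fin k), ∑ g, F (g + φ j g) = ∑ g, F g +
      (F (2 ^ (j : ℕ), 0) + F (-2 ^ (j : ℕ), 0) -
        (F (2 ^ (j + 1 : ℕ), 0) + F (-2 ^ (j + 1 : ℕ), 0))) := fun F j => by
    have b1 : Injective fun g : ZMod N × ZMod N => g + (g.1, g.2 - (j : ℕ) - (j : ℕ)) := by
      rintro ⟨p, x⟩ ⟨p', x'⟩ h
      simp only [Prod.mk_add_mk, Prod.mk.injEq] at h
      rw [two_inj hodd h.1, two_inj hodd (x := x) (y := x') (by linear_combination h.2)]
    rw [← (Finite.injective_iff_bijective.1 b1).sum_comp F, ← sub_eq_iff_eq_add',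
      ← sum_sub_distrib, Fintype.sum_prod_type_right, sum_eq_single ((j : ℕ) : ZMod N)]
    · have := sum_cyc (e0 j) (e1 j j.2 j j.2) fun p => F (p, 0)
      simp only [hφ, if_true, Prod.mk_add_mk, sum_sub_distrib, sub_self, zero_sub, add_neg_cancel]
      rw [this, pow_succ, mul_two]
      ring
    · intro x _ hx
      simp [hφ, hx]
    · simp
  obtain ⟨g, g0, g1⟩ := exists_lab k N hk hN
  obtain ⟨ρ, γ, r1, r2, r3⟩ : ∃ ρ γ : ZMod N → ℤ, (∀ p, ρ p + γ p + g (p + p) = 0) ∧
      (∀ j < k, γ (2 ^ j) = -g (2 ^ j)) ∧ ∀ p, (∀ j < k, p ≠ 2 ^ j) → ρ p = -g p :=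
    ⟨fun p => if ∃ j < k, p = 2 ^ j then g p - g (p + p) else -g p,
      fun p => if ∃ j < k, p = 2 ^ j then -g p else g p - g (p + p),
      fun p => by dsimp only; split_ifs <;> ring, fun j hj => if_pos ⟨j, hj, rfl⟩,
      fun p hp => if_neg fun ⟨j, hj, h⟩ => hp j hj h⟩
  have r4 : ρ 0 = 0 := by simpa [g0] using r3 0 fun j _ => (e0 j).symm
  have r5 : γ 0 = 0 := by simpa [g0, r4] using r1 0
  obtain ⟨w, hw⟩ : ∃ w : (ZMod N × ZMod N) × ZMod N × ZMod N → ℤ, w = fun q =>
      ρ q.1.1 + γ q.2.1 + (g (q.1 + q.2).1 + if q.1 + q.2 = 0 then 1 else 0) := ⟨_, rfl⟩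
  have w1 : ∀ q ∈ gr φ, w q = if q = ((1, 0), (-1, 0)) then (k : ℤ) else 0 := by
    rintro ⟨⟨p, x⟩, q⟩ hq
    obtain ⟨j, rfl⟩ : ∃ j, q = φ j (p, x) := mem_gr.1 hq
    have c0 : (1 : ZMod N) ≠ -1 := by simpa using e1 0 hk 0 hk
    have c1 : (0 : ZMod N) ≠ 1 := by simpa using (e0 0).symm
    have c2 := r3 (-2 ^ (j : ℕ)) fun i hi => (e1 i hi j j.2).symm
    by_cases hx : x = (j : ℕ)
    swap
    · have : x + (x - (j : ℕ) - (j : ℕ)) ≠ 0 := fun h =>
        hx (two_inj hodd (by linear_combination h))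
      have : ¬ (p = 1 ∧ p = -1) := fun h => c0 (h.1.symm.trans h.2)
      simp only [hw, hφ, hx, if_false, Prod.mk_add_mk, Prod.mk_eq_zero, Prod.mk.injEq]
      rw [if_neg (by tauto), if_neg (by tauto), add_zero, r1]
    subst hx
    simp only [hw, hφ, if_true, Prod.mk_add_mk, Prod.mk_eq_zero, Prod.mk.injEq, sub_self, zero_sub,
      add_neg_cancel, and_true]
    by_cases h0 : p = 0
    · simp [h0, cyc_zero (e0 j) (e1 j j.2 j j.2), r4, r2 j j.2, e0, c1]
    by_cases h2 : p = -2 ^ (j : ℕ)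
    · simp [h2, cyc_neg (e0 j) (e1 j j.2 j j.2), r5, c2, e0, c1.symm]
    by_cases h1 : p = 2 ^ (j : ℕ)
    swap
    · have : p + p ≠ 0 := fun h => h0 (two_inj hodd (by simpa using h))
      have : ¬ (p = 1 ∧ p = -1) := fun h => c0 (h.1.symm.trans h.2)
      rw [cyc_of_ne h0 h1 h2, if_neg (by tauto), if_neg (by tauto), add_zero, r1]
    have d1 := r1 (2 ^ (j : ℕ))
    have d2 := r1 (-2 ^ (j : ℕ))
    have d3 := g1 (j + 1) (by omega) j.2
    rw [pow_succ, mul_two] at d3
    rw [← neg_add] at d2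
    rw [h1, cyc_self, add_neg_cancel, if_pos rfl, g0]
    have d4 := r2 j j.2
    push_cast at d3
    rcases Nat.eq_zero_or_pos j with hj | hj
    · have d5 := g1 k hk le_rfl
      rw [e2, neg_neg] at d5
      simp only [hj, pow_zero, Nat.cast_zero, neg_zero, and_self, if_true] at *
      linarith
    · have d5 := g1 j hj j.2.le
      rw [if_neg fun h => nz hj (j.2.trans hkN) h.1.2]
      linarith
  refine ⟨fun a b => a + b, gr φ, fun _ => add_right_injective _, fun _ => add_left_injective _,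
    ⟨fun r => ?_, fun c => ?_, fun s => ?_⟩, fun h h0 h1 Q hQ hR => ?_⟩
  · rw [card_gr' φ f1 _ (fun _ _ _ e => e), Fintype.card_fin]
  · rw [card_gr' φ f1 _ f2, Fintype.card_fin]
  · have := card_gr φ f1 (fun q => q.1 + q.2) s
    rw [sum_congr rfl fun j _ => f3 (fun g => if g = s then 1 else 0) j, sum_add_distrib,
      Fin.sum_univ_eq_sum_range (fun j => ((if ((2 : ZMod N) ^ j, 0) = s then 1 else 0 : ℤ) +
        if (-(2 : ZMod N) ^ j, 0) = s then 1 else 0) - ((if ((2 : ZMod N) ^ (j + 1), 0) = s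
          then 1 else 0) + if (-(2 : ZMod N) ^ (j + 1), 0) = s then 1 else 0)) k,
      sum_range_sub', e2, neg_neg, pow_zero, add_comm (ite _ _ _), sub_self] at this
    simpa using this
  · have s1 : ∑ q ∈ Q, w q = h := by
      have t1 := sum_reg Q _ h hR.1 fun a => ρ a.1
      have t2 := sum_reg Q _ h hR.2.1 fun a => γ a.1
      have t3 := sum_reg Q _ h hR.2.2 fun a => g a.1 + if a = 0 then 1 else 0
      have t4 := (Finite.injective_iff_bijective.1
        (fun x y => two_inj hodd : Injective fun x : ZMod N => x + x)).sum_comp g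
      have t5 : ∑ p, ρ p + ∑ p, γ p + ∑ p, g p = 0 := by
        rw [← t4, ← sum_add_distrib, ← sum_add_distrib]
        exact sum_eq_zero fun p _ => r1 p
      simp only [hw]
      rw [sum_add_distrib, sum_add_distrib, t1, t2, t3, sum_add_distrib]
      simp only [Fintype.sum_prod_type_right (fun a : ZMod N × ZMod N => ρ a.1),
        Fintype.sum_prod_type_right (fun a : ZMod N × ZMod N => γ a.1),
        Fintype.sum_prod_type_right (fun a : ZMod N × ZMod N => g a.1), sum_const, sum_ite_eq',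
        mem_univ, if_true, nsmul_eq_mul]
      linear_combination (h * (univ : Finset (ZMod N)).card : ℤ) * t5
    rw [sum_congr rfl fun q hq => w1 q (hQ hq), sum_ite_eq'] at s1
    split_ifs at s1 <;> omega

theorem occ_large (k : ℕ) (hk : 1 ≤ k) : ∃ M, ∀ n, M ≤ n → Occ (Fin n) k := by
  obtain ⟨m, hm⟩ : ∃ m, Occ (Fin m) k :=
    ⟨_, (base k (2 ^ k + 1) hk rfl).equiv (Fintype.equivFin _)⟩
  have h2 := occ_add hm (odd_two_mul_add_one (m + k)) (by omega)
  refine ⟨10 * (m + k) + 10, fun n hn => ?_⟩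
  rcases Nat.even_or_odd (n - m) with h | h
  · have := occ_add h2 (t := n - (m + (2 * (m + k) + 1)))
      (by rw [Nat.even_iff] at h; rw [Nat.odd_iff]; omega) (by omega)
    rwa [Nat.add_sub_cancel' (by omega)] at this
  · have := occ_add hm h (by omega)
    rwa [Nat.add_sub_cancel' (by omega)] at this

end PlexS
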