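import Pool.Agent.Lib.MP_3d3eb4_co.PL.Top
import Pool.Agent.Lib.MP_3d3eb4_co.PL.Small

/-! Indivisible plexes of all orders from `1` to `n - C (log n)^3`. -/

namespace PlexS

open Filter Asymptotics Pool.Agent.Lib.MP_3d3eb4_co

theorem ev_rpow : ∀ᶠ m : ℕ in atTop, (m : ℝ) ^ (99 / 100 : ℝ) ≤ m / 6 := by
  have h := (tendsto_rpow_atTop (show (0 : ℝ) < 1 / 100 by norm_num)).comp
    (tendsto_natCast_atTop_atTop (R := ℝ))
  filter_upwards [h.eventually_ge_atTop 6, eventually_gt_atTop 0] with m h1 h2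
  have h3 : (0 : ℝ) < m := by exact_mod_cast h2
  have h4 : (m : ℝ) ^ (99 / 100 : ℝ) * (m : ℝ) ^ (1 / 100 : ℝ) = m := by
    rw [← Real.rpow_add h3]
    norm_num
  have h5 : (6 : ℝ) ≤ (m : ℝ) ^ (1 / 100 : ℝ) := h1
  nlinarith [Real.rpow_pos_of_pos h3 (99 / 100 : ℝ)]

theorem ev_log (C : ℝ) : ∀ᶠ m : ℕ in atTop, C * Real.log m ^ 3 ≤ m / 6 := by
  have h := ((Real.isLittleO_pow_log_id_atTop (n := 3)).const_mul_left C).comp_tendsto
    (tendsto_natCast_atTop_atTop (R := ℝ))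
  filter_upwards [h.bound (show (0 : ℝ) < 1 / 6 by norm_num)] with m hm
  simp only [Function.comp, id, Real.norm_eq_abs, Nat.abs_cast] at hm
  linarith [le_abs_self (C * Real.log m ^ 3)]

theorem all : ∃ (C : ℝ) (N : ℕ), ∀ n : ℕ, N ≤ n → ∀ k : ℕ, 1 ≤ k →
    (k : ℝ) ≤ n - C * Real.log n ^ 3 →
    ∃ (L : Fin n → Fin n → Fin n) (P : Finset (Fin n × Fin n)),
      IsLatinSquare L ∧ IsIndivisiblePlex L k P := by
  obtain ⟨C, N0, H⟩ := PlexL.top
  obtain ⟨N1, H1⟩ := eventually_atTop.1 ((ev_rpow.and (ev_log C)).and (eventually_ge_atTop N0))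
  choose! M hM using occ_large
  refine ⟨C, max N1 ((Finset.range (N1 + 2)).sup M), fun n hn k hk h2 => ?_⟩
  obtain ⟨⟨a1, -⟩, a2⟩ := H1 n (le_of_max_le_left hn)
  rcases le_or_gt ((n : ℝ) ^ (99 / 100 : ℝ)) k with h1 | h1
  · exact H n a2 k h1 h2
  rcases lt_or_ge k (N1 + 2) with h3 | h3
  · exact occ_iff.1 (hM k hk n
      ((Finset.le_sup (Finset.mem_range.2 h3)).trans (le_of_max_le_right hn)))
  have a3 : 6 * k ≤ n := by
    have : (6 * k : ℝ) ≤ n := by linarith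
    exact_mod_cast this
  obtain ⟨m, m1, m2, m3⟩ : ∃ m, 2 * k ≤ m ∧ m ≤ 2 * k + 1 ∧ Odd (n - m) := by
    rcases Nat.even_or_odd n with h | h
    · exact ⟨2 * k + 1, by omega, le_rfl, by rw [Nat.even_iff] at h; rw [Nat.odd_iff]; omega⟩
    · exact ⟨2 * k, le_rfl, by omega, by rw [Nat.odd_iff] at h ⊢; omega⟩
  obtain ⟨⟨b1, b2⟩, b3⟩ := H1 m (by omega)
  have c1 : (2 * k : ℝ) ≤ m := by exact_mod_cast m1
  have c2 : (m : ℝ) ≤ 2 * k + 1 := by exact_mod_cast m2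
  have c3 : (1 : ℝ) ≤ k := by exact_mod_cast hk
  have := occ_add (occ_iff.2 (H m b3 k (by linarith) (by linarith))) m3 (by omega)
  rw [Nat.add_sub_cancel' (by omega)] at this
  exact occ_iff.1 this

end PlexS
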