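import Pool.Agent.Lib.MP_3d3eb4_co.PL.Defs

/-! Cells that cannot be added are replaced by switches inside an interval of diagonals. -/

namespace PlexL

open Finset

/-- an interval of diagonals -/
def itv (m : ℕ) (y : ZMod m) (k : ℕ) : Finset (ZMod m) := (range k).image fun t : ℕ => y + t

theorem sw_mem_itv {m : ℕ} (y : ZMod m) (k : ℕ) (t : ℤ) (h0 : 0 ≤ t) (h1 : t < k) :
    y + (t : ZMod m) ∈ itv m y k := by
  refine mem_image.2 ⟨t.toNat, mem_range.2 (by omega), ?_⟩
  have : ((t.toNat : ℤ) : ZMod m) = (t : ZMod m) := by rw [Int.toNat_of_nonneg h0]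
  rw [← this, Int.cast_natCast]

theorem sw_notMem_itv {m : ℕ} (y : ZMod m) (k : ℕ) (t : ℤ) (h0 : (k : ℤ) ≤ t) (h1 : t < m) :
    y + (t : ZMod m) ∉ itv m y k := by
  intro h
  obtain ⟨n, hn, e⟩ := mem_image.1 h
  have hn' := mem_range.1 hn
  have e2 : ((n : ℤ) : ZMod m) = (t : ZMod m) := by
    rw [Int.cast_natCast]; exact add_left_cancel e
  have hd := (ZMod.intCast_eq_intCast_iff_dvd_sub _ _ _).1 e2
  have := Int.le_of_dvd (by omega) hd
  omega

theorem sw_cast_inj {m ρ : ℕ} (hρ : ρ ≤ m) {a b : ℕ} (ha : a ∈ range ρ) (hb : b ∈ range ρ)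
    (e : (a : ZMod m) = b) : a = b := by
  have := (ZMod.natCast_eq_natCast_iff' a b m).1 e
  rwa [Nat.mod_eq_of_lt (by have := mem_range.1 ha; omega),
    Nat.mod_eq_of_lt (by have := mem_range.1 hb; omega)] at this

theorem sw_bad_set {m ρ : ℕ} (hρ : ρ ≤ m) (f : ZMod m → ZMod m) (hf : Function.Injective f)
    (S : Finset (ZMod m)) : ((range ρ).filter fun a : ℕ => f a ∈ S).card ≤ S.card :=
  card_le_card_of_injOn (fun a : ℕ => f a) (fun _ ha => (mem_filter.1 ha).2)
    (fun _ ha _ hb e => sw_cast_inj hρ (mem_filter.1 ha).1 (mem_filter.1 hb).1 (hf e))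

theorem sw_bad_cell {m ρ : ℕ} (hρ : ρ ≤ m) (f : ZMod m → ZMod m × ZMod m)
    (hf : Function.Injective f) (T : Finset (ZMod m × ZMod m)) (l : Fin 3 × ZMod m)
    (hl : ∀ a, co l.1 (f a) = l.2) :
    ((range ρ).filter fun a : ℕ => f a ∈ T).card ≤ cnt T.val l := by
  rw [cnt_val]
  exact card_le_card_of_injOn (fun a : ℕ => f a)
    (fun a ha => mem_filter.2 ⟨(mem_filter.1 ha).2, hl _⟩)
    (fun _ ha _ hb e => sw_cast_inj hρ (mem_filter.1 ha).1 (mem_filter.1 hb).1 (hf e))

theorem sw_choose_u {m ρ h D : ℕ} (hm : ρ ≤ m) (hρ : 2 * (h + 2) + D < ρ) (r c u0 : ZMod m)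
    (T : Finset (ZMod m × ZMod m)) (S : Fin 3 → Finset (ZMod m)) (hT : ∀ l, cnt T.val l ≤ D)
    (hS : ∀ i, (S i).card ≤ h + 2) :
    ∃ a : ℕ, a < ρ ∧ r + (u0 + a) ∉ S 0 ∧ c - (u0 + a) ∉ S 1 ∧
      (r + (u0 + a), c - (u0 + a)) ∉ T := by
  have h1 := (sw_bad_set hm (fun a => r + (u0 + a))
    (fun a b e => by simpa using e) (S 0)).trans (hS 0)
  have h2 := (sw_bad_set hm (fun a => c - (u0 + a))
    (fun a b e => by simpa using e) (S 1)).trans (hS 1)
  have h3 := (sw_bad_cell hm (fun a => (r + (u0 + a), c - (u0 + a)))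
    (fun a b e => by simpa using e) T (2, r + c) (fun a => by simp)).trans (hT _)
  obtain ⟨a, ha, hn⟩ := exists_mem_notMem_of_card_lt_card (t := range ρ)
    (lt_of_le_of_lt ((card_union_le _ _).trans (add_le_add ((card_union_le _ _).trans
      (add_le_add h1 h2)) h3)) (by rw [card_range]; omega))
  simp only [mem_union, mem_filter, ha, true_and, not_or] at hn
  exact ⟨a, mem_range.1 ha, hn.1.1, hn.1.2, hn.2⟩

theorem sw_choose_v {m ρ h D : ℕ} (hm : ρ ≤ m) (hρ : 4 * (h + 2) + 4 * D < ρ) (r c u v0 : ZMod m)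
    (T : Finset (ZMod m × ZMod m)) (S : Fin 3 → Finset (ZMod m)) (hT : ∀ l, cnt T.val l ≤ D)
    (hS : ∀ i, (S i).card ≤ h + 2) :
    ∃ b : ℕ, b < ρ ∧ r + (v0 - b) ∉ S 0 ∧ c + (v0 - b) - u ∉ S 1 ∧ r + c + (v0 - b) ∉ S 2 ∧
      r + c + (v0 - b) - u ∉ S 2 ∧ (r + u, c + (v0 - b) - u) ∉ T ∧ (r + (v0 - b), c - u) ∉ T ∧
      (r, c + (v0 - b) - u) ∉ T ∧ (r + (v0 - b), c) ∉ T := by
  have h1 := (sw_bad_set hm (fun a => r + (v0 - a))
    (fun a b e => by simpa using e) (S 0)).trans (hS 0)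
  have h2 := (sw_bad_set hm (fun a => c + (v0 - a) - u)
    (fun a b e => by simpa using e) (S 1)).trans (hS 1)
  have h3 := (sw_bad_set hm (fun a => r + c + (v0 - a))
    (fun a b e => by simpa using e) (S 2)).trans (hS 2)
  have h4 := (sw_bad_set hm (fun a => r + c + (v0 - a) - u)
    (fun a b e => by simpa using e) (S 2)).trans (hS 2)
  have h5 := (sw_bad_cell hm (fun a => (r + u, c + (v0 - a) - u))
    (fun a b e => by simpa using e) T (0, r + u) (fun a => rfl)).trans (hT _)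
  have h6 := (sw_bad_cell hm (fun a => (r + (v0 - a), c - u))
    (fun a b e => by simpa using e) T (1, c - u) (fun a => rfl)).trans (hT _)
  have h7 := (sw_bad_cell hm (fun a => (r, c + (v0 - a) - u))
    (fun a b e => by simpa using e) T (0, r) (fun a => rfl)).trans (hT _)
  have h8 := (sw_bad_cell hm (fun a => (r + (v0 - a), c))
    (fun a b e => by simpa using e) T (1, c) (fun a => rfl)).trans (hT _)
  have u1 := (card_union_le _ _).trans (add_le_add h1 h2)
  have u2 := (card_union_le _ _).trans (add_le_add h3 h4)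
  have u3 := (card_union_le _ _).trans (add_le_add h5 h6)
  have u4 := (card_union_le _ _).trans (add_le_add h7 h8)
  have u5 := (card_union_le _ _).trans (add_le_add ((card_union_le _ _).trans (add_le_add u1 u2))
    ((card_union_le _ _).trans (add_le_add u3 u4)))
  obtain ⟨a, ha, hn⟩ := exists_mem_notMem_of_card_lt_card (t := range ρ)
    (lt_of_le_of_lt u5 (by rw [card_range]; omega))
  simp only [mem_union, mem_filter, ha, true_and, not_or] at hn
  obtain ⟨⟨⟨a1, a2⟩, a3, a4⟩, ⟨a5, a6⟩, a7, a8⟩ := hn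
  exact ⟨a, mem_range.1 ha, a1, a2, a3, a4, a5, a6, a7, a8⟩

theorem sw_step {m ρ h D : ℕ} [NeZero m] (σ y : ZMod m) (hm : 200 * ρ + 100 ≤ m)
    (hρ : 4 * (h + 2) + 4 * D < ρ) (T : Finset (ZMod m × ZMod m)) (S : Fin 3 → Finset (ZMod m))
    (x : ZMod m × ZMod m) (hx : Off σ x) (hT : ∀ l, cnt T.val l ≤ D)
    (hS : ∀ i, (S i).card ≤ h + 2) (hz : ∀ i, zr σ i ∈ S i) (hxS : ∀ i, co i x ∈ S i) :
    ∃ R A : Finset (ZMod m × ZMod m), (∀ z ∈ R, z.2 - z.1 ∈ itv m y (8 * ρ)) ∧
      (∀ z ∈ A, z.2 - z.1 ∉ itv m y (8 * ρ)) ∧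
      (∀ z ∈ R ∪ A, Off σ z ∧ z ∉ T ∧ ∀ i, co i z = co i x ∨ co i z ∉ S i) ∧
      (R ∪ A).card ≤ 5 ∧ deg A.val = vec x + deg R.val := by
  obtain ⟨r, c⟩ := x
  obtain ⟨g, hg0, hg1, hg⟩ : ∃ g : ℤ, -36 * (ρ : ℤ) - 9 ≤ g ∧ g < m - 36 * (ρ : ℤ) - 9 ∧
      c - r = y + 4 * (ρ : ZMod m) + g := by
    refine ⟨((c - r - y - 4 * ρ + (36 * ρ + 9) : ZMod m).val : ℤ) - (36 * ρ + 9), by omega, ?_, ?_⟩
    · have := ZMod.val_lt (c - r - y - 4 * ρ + (36 * ρ + 9) : ZMod m)
      omega
    · push_cast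
      rw [ZMod.natCast_zmod_val]
      ring
  obtain ⟨u0, e, he0, he1, hue⟩ : ∃ u0 e : ℤ, 0 ≤ e ∧ e < 3 ∧ 3 * u0 + e = 2 * g + m :=
    ⟨(2 * g + m) / 3, (2 * g + m) % 3, by omega, by omega, by omega⟩
  have hue' : 3 * (u0 : ZMod m) + e = 2 * g := by
    have := congrArg (Int.cast : ℤ → ZMod m) hue
    push_cast at this
    rwa [ZMod.natCast_self, add_zero] at this
  obtain ⟨a, ha, p1, p2, p3⟩ := sw_choose_u (by omega : ρ ≤ m) (by omega : 2 * (h + 2) + D < ρ)
    r c u0 T S hT hS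
  set u : ZMod m := u0 + a with hu
  obtain ⟨b, hb, q1, q2, q3, q4, q5, q6, q7, q8⟩ := sw_choose_v (by omega : ρ ≤ m) hρ
    r c u (c - r - u - (y + 4 * ρ)) T S hT hS
  set v : ZMod m := c - r - u - (y + 4 * ρ) - b with hv
  have hu0 : u ≠ 0 := fun e => p1 (by rw [e, add_zero]; exact hxS 0)
  have hv0 : v ≠ 0 := fun e => q1 (by rw [e, add_zero]; exact hxS 0)
  have off : ∀ z : ZMod m × ZMod m, (∀ i, co i z = co i (r, c) ∨ co i z ∉ S i) → Off σ z := by
    intro z hz'
    refine off_iff.2 fun i e => ?_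
    rcases hz' i with e' | e'
    · exact off_iff.1 hx i (e'.symm.trans e)
    · exact e' (e ▸ hz i)
  have tri : ∀ z : ZMod m × ZMod m, (z.1 = r ∨ z.1 ∉ S 0) → (z.2 = c ∨ z.2 ∉ S 1) →
      (z.1 + z.2 = r + c ∨ z.1 + z.2 ∉ S 2) → z ∉ T →
      Off σ z ∧ z ∉ T ∧ ∀ i, co i z = co i (r, c) ∨ co i z ∉ S i := by
    intro z h0 h1 h2 hzT
    have : ∀ i, co i z = co i (r, c) ∨ co i z ∉ S i := fun i => by
      fin_cases i
      exacts [h0, h1, h2]
    exact ⟨off z this, hzT, this⟩
  refine ⟨{(r + u, c + v - u), (r + v, c - u)}, {(r, c + v - u), (r + u, c - u), (r + v, c)},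
    ?_, ?_, ?_, ?_, ?_⟩
  · intro z hz'
    simp only [mem_insert, mem_singleton] at hz'
    rcases hz' with rfl | rfl
    · have := sw_mem_itv y (8 * ρ) (4 * ρ + e - 3 * a - b) (by omega) (by push_cast; omega)
      convert this using 1
      push_cast
      linear_combination hv - 3 * hu + 2 * hg - hue'
    · have := sw_mem_itv y (8 * ρ) (4 * ρ + b) (by omega) (by push_cast; omega)
      convert this using 1
      push_cast
      linear_combination (-1 : ZMod m) * hv
  · intro z hz'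
    simp only [mem_insert, mem_singleton] at hz'
    rcases hz' with rfl | rfl | rfl
    · have := sw_notMem_itv y (8 * ρ) (4 * ρ + e - 2 * a - b + u0) (by push_cast; omega) (by omega)
      convert this using 2
      push_cast
      linear_combination hv - 2 * hu + 2 * hg - hue'
    · have := sw_notMem_itv y (8 * ρ) (g - 2 * u0 + m + 4 * ρ - 2 * a) (by push_cast; omega)
        (by omega)
      convert this using 2
      push_cast
      rw [ZMod.natCast_self]
      linear_combination hg - 2 * hu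
    · have := sw_notMem_itv y (8 * ρ) (4 * ρ + b + u0 + a) (by push_cast; omega) (by omega)
      convert this using 2
      push_cast
      linear_combination hu - hv
  · intro z hz'
    simp only [mem_union, mem_insert, mem_singleton] at hz'
    rcases hz' with (rfl | rfl) | rfl | rfl | rfl
    · exact tri _ (Or.inr p1) (Or.inr q2) (Or.inr (by convert q3 using 2; ring)) q5
    · exact tri _ (Or.inr q1) (Or.inr p2) (Or.inr (by convert q4 using 2; ring)) q6
    · exact tri _ (Or.inl rfl) (Or.inr q2) (Or.inr (by convert q4 using 2; ring)) q7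
    · exact tri _ (Or.inr p1) (Or.inr p2) (Or.inl (by ring)) p3
    · exact tri _ (Or.inr q1) (Or.inl rfl) (Or.inr (by convert q3 using 2; ring)) q8
  · exact (card_union_le _ _).trans (add_le_add card_le_two card_le_three)
  · have n1 : ((r + u, c + v - u) : ZMod m × ZMod m) ≠ (r + v, c - u) := fun e =>
      hv0 (by simpa using (Prod.ext_iff.1 e).2)
    have n2 : ((r, c + v - u) : ZMod m × ZMod m) ≠ (r + u, c - u) := fun e =>
      hu0 (by simpa using (Prod.ext_iff.1 e).1)
    have n3 : ((r, c + v - u) : ZMod m × ZMod m) ≠ (r + v, c) := fun e =>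
      hv0 (by simpa using (Prod.ext_iff.1 e).1)
    have n4 : ((r + u, c - u) : ZMod m × ZMod m) ≠ (r + v, c) := fun e =>
      hu0 (by simpa using (Prod.ext_iff.1 e).2)
    rw [deg_val, deg_val, sum_pair n1,
      sum_insert (by simp only [mem_insert, mem_singleton, not_or]; exact ⟨n2, n3⟩), sum_pair n4]
    have s1 : r + (c + v - u) = r + v + (c - u) := by ring
    have s2 : r + u + (c - u) = r + c := by ring
    have s3 : r + v + c = r + u + (c + v - u) := by ring
    simp only [vec]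
    rw [s1, s2, s3]
    abel

theorem sw_ind {m ρ D H h : ℕ} [NeZero m] (σ y : ZMod m) (T : Finset (ZMod m × ZMod m))
    (hm : 200 * ρ + 100 ≤ m) (hH : 0 < H) (hρ : 4 * (h + 2) + 4 * (6 * D + H + 5) < ρ)
    (hT : ∀ l, cnt T.val l ≤ D) (E : Multiset (ZMod m × ZMod m)) :
    ∀ K W : Finset (ZMod m × ZMod m), (∀ x ∈ E, Off σ x) →
      (∀ l, cnt W.val l + 5 * cnt E l ≤ 5 * D + H + 5) → W.card + 5 * E.card ≤ H * h →
      (∀ x, Off σ x → x ∉ T → x ∉ W → (x ∈ K ↔ x.2 - x.1 ∈ itv m y (8 * ρ))) →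
      ∃ K' : Finset (ZMod m × ZMod m), (∀ x ∈ K', x ∈ K ∨ (Off σ x ∧ x ∉ T)) ∧
        deg K'.val = deg K.val + deg E := by
  induction E using Multiset.induction_on with
  | empty => exact fun K _ _ _ _ _ => ⟨K, fun x hx => Or.inl hx, by simp⟩
  | cons x E ih =>
    intro K W hE hψ hN hK
    set S : Fin 3 → Finset (ZMod m) := fun i => insert (zr σ i) (insert (co i x)
      (univ.filter fun a => H ≤ cnt W.val (i, a) + 5 * cnt (x ::ₘ E) (i, a))) with hS
    have hheavy : ∀ i, (univ.filter fun a =>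
        H ≤ cnt W.val (i, a) + 5 * cnt (x ::ₘ E) (i, a)).card ≤ h := by
      intro i
      have h1 := card_nsmul_le_sum (univ.filter fun a =>
        H ≤ cnt W.val (i, a) + 5 * cnt (x ::ₘ E) (i, a))
        (fun a => cnt W.val (i, a) + 5 * cnt (x ::ₘ E) (i, a)) H (fun a ha => (mem_filter.1 ha).2)
      have h2 := sum_le_sum_of_subset (f := fun a => cnt W.val (i, a) + 5 * cnt (x ::ₘ E) (i, a))
        (filter_subset (fun a => H ≤ cnt W.val (i, a) + 5 * cnt (x ::ₘ E) (i, a)) univ)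
      rw [sum_add_distrib (s := univ), ← mul_sum, sum_cnt, sum_cnt, card_val] at h2
      rw [smul_eq_mul, mul_comm] at h1
      exact Nat.le_of_mul_le_mul_left ((h1.trans h2).trans hN) hH
    obtain ⟨R, A, hR, hA, hRA, hc, hd⟩ := sw_step (h := h) (D := 6 * D + H + 5) σ y hm hρ (T ∪ W) S
      x (hE x (Multiset.mem_cons_self _ _))
      (fun l => by have := cnt_union_le T W l; have := hT l; have := hψ l; omega)
      (fun i => by
        have := hheavy i
        exact (card_insert_le _ _).trans (Nat.succ_le_succ ((card_insert_le _ _).trans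
          (Nat.succ_le_succ this))))
      (fun i => mem_insert_self _ _) (fun i => mem_insert_of_mem (mem_insert_self _ _))
    have hRK : R ⊆ K := fun z hz => by
      obtain ⟨a1, a2, -⟩ := hRA z (mem_union_left _ hz)
      exact (hK z a1 (fun e => a2 (mem_union_left _ e)) (fun e => a2 (mem_union_right _ e))).2
        (hR z hz)
    have hAK : ∀ z ∈ A, z ∉ K := fun z hz hzK => by
      obtain ⟨a1, a2, -⟩ := hRA z (mem_union_right _ hz)
      exact hA z hz ((hK z a1 (fun e => a2 (mem_union_left _ e))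
        (fun e => a2 (mem_union_right _ e))).1 hzK)
    obtain ⟨K', h1, h2⟩ := ih ((K \ R) ∪ A) (W ∪ (R ∪ A))
      (fun z hz => hE z (Multiset.mem_cons_of_mem hz))
      (fun l => by
        have c1 := cnt_union_le W (R ∪ A) l
        have c2 := cnt_le_card (R ∪ A).val l
        rw [card_val] at c2
        have c3 := hψ l
        have c4 := cnt_cons x E l
        by_cases hl : co l.1 x = l.2
        · rw [if_pos hl] at c4
          omega
        · rw [if_neg hl] at c4
          by_cases h0 : cnt (R ∪ A).val l = 0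
          · omega
          · rw [cnt_val] at h0
            obtain ⟨z, hz⟩ := card_pos.1 (Nat.pos_of_ne_zero h0)
            obtain ⟨hz1, hz2⟩ := mem_filter.1 hz
            rcases (hRA z hz1).2.2 l.1 with e | e
            · exact absurd (e.symm.trans hz2) hl
            · rw [hz2] at e
              have : ¬ H ≤ cnt W.val (l.1, l.2) + 5 * cnt (x ::ₘ E) (l.1, l.2) := fun hh =>
                e (mem_insert_of_mem (mem_insert_of_mem (mem_filter.2 ⟨mem_univ _, hh⟩)))
              rw [Prod.mk.eta] at this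
              omega)
      (by
        have := card_union_le W (R ∪ A)
        rw [Multiset.card_cons] at hN
        omega)
      (fun z hz hzT hzW => by
        simp only [mem_union, not_or] at hzW
        rw [← hK z hz hzT hzW.1]
        simp only [mem_union, mem_sdiff, hzW.2.1, hzW.2.2, not_false_eq_true, and_true, or_false])
    refine ⟨K', fun z hz => ?_, ?_⟩
    · rcases h1 z hz with e | e
      · rcases mem_union.1 e with e | e
        · exact Or.inl (mem_sdiff.1 e).1
        · obtain ⟨a1, a2, -⟩ := hRA z (mem_union_right _ e)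
          exact Or.inr ⟨a1, fun e => a2 (mem_union_left _ e)⟩
      · exact Or.inr e
    · rw [h2, deg_union (disjoint_right.2 fun z hz e => hAK z hz (mem_sdiff.1 e).1),
        deg_sdiff hRK, hd, deg_cons]
      abel

theorem switch_all (m : ℕ) [NeZero m] (σ y : ZMod m) (ρ D H h : ℕ)
    (T K : Finset (ZMod m × ZMod m)) (E : Multiset (ZMod m × ZMod m)) (hm : 200 * ρ + 100 ≤ m)
    (hH : 0 < H) (hρ : 4 * (h + 2) + 4 * (6 * D + H + 5) < ρ) (hT : ∀ l, cnt T.val l ≤ D)
    (hE : ∀ l, cnt E l ≤ D) (hE' : ∀ x ∈ E, Off σ x) (hN : 5 * E.card ≤ H * h)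
    (hK : ∀ x, Off σ x → x ∉ T → (x ∈ K ↔ x.2 - x.1 ∈ itv m y (8 * ρ))) :
    ∃ K' : Finset (ZMod m × ZMod m), (∀ x ∈ K', x ∈ K ∨ (Off σ x ∧ x ∉ T)) ∧
      deg K'.val = deg K.val + deg E :=
  sw_ind σ y T hm hH hρ hT E K ∅ hE'
    (fun l => by have := hE l; rw [empty_val, cnt_zero]; omega) (by simpa using hN)
    (fun x h1 h2 _ => hK x h1 h2)

end PlexL
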