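import Pool.Agent.Lib.MP_3d3eb4_co.PL.Path
import Pool.Agent.Lib.MP_3d3eb4_co.PL.Switch

/-! Families of diagonals that meet every line equally often. -/

namespace PlexL

open Finset

set_option linter.unusedSectionVars false

variable {m : ℕ} [NeZero m]

/-- the cells on a set of diagonals -/
def dg (S : Finset (ZMod m)) : Finset (ZMod m × ZMod m) := univ.filter fun x => x.2 - x.1 ∈ S

theorem mem_dg {S : Finset (ZMod m)} {x : ZMod m × ZMod m} : x ∈ dg S ↔ x.2 - x.1 ∈ S := by
  simp [dg]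

theorem cnt_dg0 (S : Finset (ZMod m)) (a : ZMod m) : cnt (dg S).val (0, a) = S.card := by
  rw [cnt_val]
  refine card_bij' (fun x _ => x.2 - x.1) (fun j _ => (a, a + j)) ?_ ?_ ?_ ?_
  · exact fun x hx => mem_dg.1 (mem_filter.1 hx).1
  · intro j hj; simpa [mem_dg] using hj
  · intro x hx
    have : x.1 = a := (mem_filter.1 hx).2
    simp [← this]
  · simp

theorem cnt_dg1 (S : Finset (ZMod m)) (a : ZMod m) : cnt (dg S).val (1, a) = S.card := by
  rw [cnt_val]
  refine card_bij' (fun x _ => x.2 - x.1) (fun j _ => (a - j, a)) ?_ ?_ ?_ ?_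
  · exact fun x hx => mem_dg.1 (mem_filter.1 hx).1
  · intro j hj; simpa [mem_dg] using hj
  · intro x hx
    have : x.2 = a := (mem_filter.1 hx).2
    simp [← this]
  · simp

theorem cnt_dg2 (S : Finset (ZMod m)) (a : ZMod m) :
    cnt (dg S).val (2, a) = ∑ j ∈ S, (univ.filter fun r : ZMod m => r + r = a - j).card := by
  rw [cnt_val, card_eq_sum_card_fiberwise (f := fun x => x.2 - x.1) (t := S)
    fun x hx => mem_dg.1 (mem_filter.1 hx).1]
  refine sum_congr rfl fun j hj => ?_
  refine card_bij' (fun x _ => x.1) (fun r _ => (r, r + j)) ?_ ?_ ?_ ?_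
  · intro x hx
    simp only [mem_filter, co_two, mem_univ, true_and] at hx ⊢
    linear_combination hx.1.2 - hx.2
  · intro r hr
    simp only [mem_filter, co_two, mem_univ, true_and, mem_dg, add_sub_cancel_left] at hr ⊢
    exact ⟨⟨hj, by linear_combination hr⟩, trivial⟩
  · intro x hx
    simp [← (mem_filter.1 hx).2]
  · simp

theorem cnt_dg_le (S : Finset (ZMod m)) (l : Fin 3 × ZMod m) : cnt (dg S).val l ≤ 2 * S.card := by
  obtain ⟨i, a⟩ := l
  fin_cases i
  · exact (cnt_dg0 S a).le.trans (by omega)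
  · exact (cnt_dg1 S a).le.trans (by omega)
  · refine (cnt_dg2 S a).le.trans ((sum_le_card_nsmul _ _ 2 fun j _ => ?_).trans (by simp [mul_comm]))
    simpa using card_half {a - j}

theorem two_halves (v : ZMod m) : (univ.filter fun r : ZMod m => r + r = v).card +
    (univ.filter fun r : ZMod m => r + r = v - 1).card = 2 := by
  have h1 : ∀ v : ZMod m, ∑ v : ZMod m, (univ.filter fun r : ZMod m => r + r = v).card = m :=
    fun _ => by
      rw [← card_eq_sum_card_fiberwise fun _ _ => mem_coe.2 (mem_univ _), card_univ, ZMod.card]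
  have h2 : ∀ v : ZMod m, 2 ≤ (univ.filter fun r : ZMod m => r + r = v).card +
      (univ.filter fun r : ZMod m => r + r = v - 1).card := by
    intro v
    have hv := ZMod.val_lt v
    have e0 : ∀ k : ℕ, (k : ZMod m) = v → k % 2 = 0 →
        ((k / 2 : ℕ) : ZMod m) ∈ univ.filter fun r : ZMod m => r + r = v := fun k h h' => by
      rw [mem_filter, ← Nat.cast_add, show k / 2 + k / 2 = k by omega]
      exact ⟨mem_univ _, h⟩
    have e1 : ∀ k : ℕ, (k : ZMod m) = v → k % 2 = 1 →
        ((k / 2 : ℕ) : ZMod m) ∈ univ.filter fun r : ZMod m => r + r = v - 1 := fun k h h' => by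
      rw [mem_filter, eq_sub_iff_add_eq, ← Nat.cast_add, ← Nat.cast_succ,
        show (k / 2 + k / 2).succ = k by omega]
      exact ⟨mem_univ _, h⟩
    have a1 : ((v.val : ℕ) : ZMod m) = v := ZMod.natCast_zmod_val v
    have a2 : ((v.val + m : ℕ) : ZMod m) = v := by simp
    have ne : v.val % 2 = (v.val + m) % 2 → ((v.val / 2 : ℕ) : ZMod m) ≠ ((v.val + m) / 2 : ℕ) :=
      fun h h' => by
        have := nat_inj le_rfl _ (by omega) _ (by omega) h'
        omega
    rcases Nat.mod_two_eq_zero_or_one v.val with h | h <;>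
      rcases Nat.mod_two_eq_zero_or_one (v.val + m) with h' | h'
    · exact le_add_right (one_lt_card.2 ⟨_, e0 _ a1 h, _, e0 _ a2 h', ne (by omega)⟩)
    · exact Nat.add_le_add (a := 1) (c := 1) (card_pos.2 ⟨_, e0 _ a1 h⟩) (card_pos.2 ⟨_, e1 _ a2 h'⟩)
    · exact Nat.add_le_add (a := 1) (c := 1) (card_pos.2 ⟨_, e0 _ a2 h'⟩) (card_pos.2 ⟨_, e1 _ a1 h⟩)
    · exact le_add_left (one_lt_card.2 ⟨_, e1 _ a1 h, _, e1 _ a2 h', ne (by omega)⟩)
  refine ((sum_eq_sum_iff_of_le (s := univ) fun v _ => h2 v).1 ?_ v (mem_univ _)).symm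
  have h3 := Equiv.sum_comp (Equiv.subRight (1 : ZMod m))
    fun v => (univ.filter fun r : ZMod m => r + r = v).card
  simp only [Equiv.subRight_apply] at h3
  rw [sum_add_distrib, h3, h1 0]
  simp [ZMod.card, mul_two]

/-- every symbol lies on as many cells of the diagonals as every row -/
def Bal (S : Finset (ZMod m)) : Prop :=
  ∀ a, ∑ j ∈ S, (univ.filter fun r : ZMod m => r + r = a - j).card = S.card

theorem Bal.cnt {S : Finset (ZMod m)} (h : Bal S) (l : Fin 3 × ZMod m) :
    cnt (dg S).val l = S.card := by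
  obtain ⟨i, a⟩ := l
  fin_cases i
  exacts [cnt_dg0 S a, cnt_dg1 S a, (cnt_dg2 S a).trans (h a)]

theorem Bal.union {S S' : Finset (ZMod m)} (h : Bal S) (h' : Bal S') (hd : Disjoint S S') :
    Bal (S ∪ S') := fun a => by rw [sum_union hd, card_union_of_disjoint hd, h, h']

theorem Bal.shift {S : Finset (ZMod m)} (h : Bal S) (y : ZMod m) : Bal (S.image (y + ·)) :=
  fun a => by
    rw [sum_image (add_right_injective y).injOn, card_image_of_injective _ (add_right_injective y),
      ← h (a - y)]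
    simp only [sub_sub]

theorem bal_pair (S : Finset (ZMod m)) (b : ZMod m) (hd : Disjoint S (S.image (b + b + 1 + ·))) :
    Bal (S ∪ S.image (b + b + 1 + ·)) := fun a => by
  rw [sum_union hd, card_union_of_disjoint hd, sum_image (add_right_injective _).injOn,
    card_image_of_injective _ (add_right_injective _), ← sum_add_distrib,
    sum_congr rfl fun j _ => (show _ = 2 from ?_)]
  · simp [mul_two]
  rw [← two_halves (a - j)]
  congr 1
  refine card_bij' (fun r _ => r + b) (fun r _ => r - b) ?_ ?_ (by simp) (by simp)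
  · intro r hr
    exact mem_filter.2 ⟨mem_univ _, by linear_combination (mem_filter.1 hr).2⟩
  · intro r hr
    exact mem_filter.2 ⟨mem_univ _, by linear_combination (mem_filter.1 hr).2⟩

theorem itv_mono (y : ZMod m) {k k' : ℕ} (h : k ≤ k') : itv m y k ⊆ itv m y k' :=
  image_subset_image (range_mono h)

theorem card_itv (y : ZMod m) {k : ℕ} (h : k ≤ m) : (itv m y k).card = k := by
  rw [itv, card_image_of_injOn, card_range]
  exact fun i hi j hj e => nat_inj h i (by simpa using hi) j (by simpa using hj) (add_left_cancel e)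

theorem itv_shift (y : ZMod m) (k : ℕ) : (itv m 0 k).image (y + ·) = itv m y k := by
  simp [itv, image_image, Function.comp_def]

theorem bal_itv (k : ℕ) (h : 2 * k ≤ m) : Bal (itv m 0 (2 * k)) := by
  have e : itv m 0 (2 * k) = (range k).image (fun t : ℕ => ((2 * t : ℕ) : ZMod m)) ∪
      ((range k).image fun t : ℕ => ((2 * t : ℕ) : ZMod m)).image (0 + 0 + 1 + ·) := by
    ext x
    simp only [itv, mem_image, mem_range, mem_union, zero_add, exists_exists_and_eq_and]
    constructor
    · rintro ⟨t, ht, rfl⟩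
      rcases Nat.even_or_odd' t with ⟨u, rfl | rfl⟩
      · exact Or.inl ⟨u, by omega, rfl⟩
      · exact Or.inr ⟨u, by omega, by push_cast; ring⟩
    · rintro (⟨u, hu, rfl⟩ | ⟨u, hu, rfl⟩)
      · exact ⟨2 * u, by omega, rfl⟩
      · exact ⟨2 * u + 1, by omega, by push_cast; ring⟩
  rw [e]
  refine bal_pair _ 0 (disjoint_left.2 fun x hx hx' => ?_)
  simp only [mem_image, mem_range, zero_add, exists_exists_and_eq_and] at hx hx'
  obtain ⟨t, ht, rfl⟩ := hx
  obtain ⟨u, hu, e⟩ := hx'
  have := nat_inj h (2 * u + 1) (by omega) (2 * t) (by omega) (by rw [← e]; push_cast; ring)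
  omega

theorem cnt_filter_off (σ : ZMod m) (K : Finset (ZMod m × ZMod m)) (i : Fin 3) (a : ZMod m)
    (ha : a ≠ zr σ i) : cnt K.val (i, a) ≤ cnt (K.filter (Off σ)).val (i, a) + 2 := by
  have h : cnt (K.filter fun x => ¬ Off σ x).val (i, a) ≤ 2 := by
    rw [cnt_val]
    fin_cases i
    · refine le_trans (card_le_card (t := {(a, 0), (a, σ - a)}) ?_) card_le_two
      rintro ⟨r, c⟩ hx
      simp only [mem_filter, Off, Fin.zero_eta, co_zero, zr_zero] at hx ha
      obtain ⟨⟨-, h⟩, rfl⟩ := hx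
      simp only [mem_insert, mem_singleton, Prod.mk.injEq, true_and, eq_sub_iff_add_eq']
      tauto
    · refine le_trans (card_le_card (t := {(0, a), (σ - a, a)}) ?_) card_le_two
      rintro ⟨r, c⟩ hx
      simp only [mem_filter, Off, Fin.mk_one, co_one, zr_one] at hx ha
      obtain ⟨⟨-, h⟩, rfl⟩ := hx
      simp only [mem_insert, mem_singleton, Prod.mk.injEq, and_true, eq_sub_iff_add_eq]
      tauto
    · refine le_trans (card_le_card (t := {(0, a), (a, 0)}) ?_) card_le_two
      rintro ⟨r, c⟩ hx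
      simp only [mem_filter, Off, Fin.reduceFinMk, co_two, zr_two] at hx ha
      obtain ⟨⟨-, h⟩, rfl⟩ := hx
      by_cases h1 : r = 0
      · simp [h1]
      · have : c = 0 := by tauto
        simp [this]
  have := cnt_union_le (K.filter (Off σ)) (K.filter fun x => ¬ Off σ x) (i, a)
  rw [filter_union_filter_not_eq] at this
  omega

theorem card_dg_off (σ : ZMod m) (S : Finset (ZMod m)) :
    ((dg S).filter (Off σ)).card ≤ (m - 1) * S.card ∧
      (m - 1) * S.card ≤ ((dg S).filter (Off σ)).card + (m - 1) * 2 := by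
  have h := sum_cnt ((dg S).filter (Off σ)).val 0
  rw [← add_sum_erase _ _ (mem_univ (0 : ZMod m)), show cnt _ (0, (0 : ZMod m)) = 0 from
    cnt_off (σ := σ) (fun x hx => (mem_filter.1 hx).2) 0, zero_add, card_val] at h
  have hc : (univ.erase (0 : ZMod m)).card = m - 1 := by simp [ZMod.card]
  rw [← h, ← hc, ← smul_eq_mul, ← smul_eq_mul, ← sum_const, ← sum_const, ← sum_add_distrib]
  exact ⟨sum_le_sum fun a _ => (cnt_subset (filter_subset _ _) _).trans (cnt_dg0 S a).le,
    sum_le_sum fun a ha => (cnt_dg0 S a).ge.trans (cnt_filter_off σ _ 0 a (ne_of_mem_erase ha))⟩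

theorem exists_shift (U : Finset (ZMod m × ZMod m)) (D : ℕ) (hU : ∀ a, cnt U.val (0, a) ≤ D)
    (S : Finset (ZMod m)) : ∃ y, (dg (S.image (y + ·)) ∩ U).card ≤ D * S.card := by
  have h1 : U.card ≤ m * D := by
    rw [← card_val, ← sum_cnt U.val 0]
    exact (sum_le_card_nsmul _ _ D fun a _ => hU a).trans (by simp [ZMod.card])
  have h2 : ∑ y : ZMod m, (dg (S.image (y + ·)) ∩ U).card ≤ U.card * S.card := by
    have : ∀ y : ZMod m, (dg (S.image (y + ·)) ∩ U).card =
        ∑ x ∈ U, if x.2 - x.1 ∈ S.image (y + ·) then 1 else 0 := fun y => by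
      rw [← card_filter]
      congr 1
      ext x
      simp only [mem_inter, mem_dg, mem_filter, and_comm]
    simp only [this]
    rw [sum_comm]
    refine (sum_le_card_nsmul _ _ S.card fun x _ => ?_).trans (by simp)
    rw [← card_filter]
    refine le_trans (card_le_card (t := S.image fun j => x.2 - x.1 - j) fun y hy => ?_) card_image_le
    obtain ⟨j, hj, e⟩ := mem_image.1 (mem_filter.1 hy).2
    exact mem_image.2 ⟨j, hj, by rw [← e]; simp⟩
  obtain ⟨y, -, hy⟩ := exists_le_of_sum_le (s := univ) ⟨0, mem_univ _⟩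
    (f := fun y : ZMod m => (dg (S.image (y + ·)) ∩ U).card) (g := fun _ => D * S.card)
    (h2.trans (by simpa [ZMod.card, mul_assoc] using Nat.mul_le_mul_right S.card h1))
  exact ⟨y, hy⟩

/-- an interval of diagonals together with disjoint kits, balanced and with few cells in `U` -/
theorem exists_diags (σ : ZMod m) {s : ℕ} (hs : Even s) (hs' : 4 ≤ s) (hm : 2 ^ (s + 2) ≤ m)
    (hm' : m ≤ 2 ^ (s + 4)) (U : Finset (ZMod m × ZMod m)) (D : ℕ)
    (hU : ∀ a, cnt U.val (0, a) ≤ D) (N c γ ξ : ℕ) (hN : 0 < N) (hξ : N * ((s + 2) * 52) ≤ ξ)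
    (hξ' : 52 ≤ ξ) (hc : 2 * ξ + γ ≤ c) (h : 4 * ξ * c < m) :
    ∃ (y : ZMod m) (ρ : ℕ) (K : ℕ → Finset (ZMod m)) (J₁ : Finset (ZMod m)),
      (∀ g, Kit σ (K g) (s + 2)) ∧ (∀ g < N, ∀ g' < g, Disjoint (K g) (K g')) ∧
      (range N).biUnion K ⊆ J₁ ∧ J₁.card ≤ 2 * ξ ∧ Disjoint (itv m y (8 * ρ)) J₁ ∧
      8 * ρ + J₁.card + γ ≤ c ∧ c < 8 * ρ + J₁.card + γ + 8 ∧ Bal (itv m y (8 * ρ) ∪ J₁) ∧
      (dg (itv m y (8 * ρ) ∪ J₁) ∩ U).card ≤ D * c := by
  have hπ : (s + 2) * 52 ≤ ξ := le_trans (Nat.le_mul_of_pos_left _ hN) hξ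
  have hcm : c ≤ m := by nlinarith
  obtain ⟨K₀, k1, k2⟩ := exists_kit (σ := σ) hs hs' hm hm' (by nlinarith)
  obtain ⟨β, hβ⟩ := greedy (fun _ => K₀) (itv m 0 c) _ (fun _ => k1) N (by
    rw [card_itv _ hcm, ZMod.card]; nlinarith)
  set X := (range N).biUnion fun g => K₀.image (β g + ·) with hX
  have x1 : X.card ≤ ξ := (card_biUnion_le_card_mul _ _ _ fun g _ =>
    card_image_le.trans k1).trans (by simpa using hξ)
  have x2 : Disjoint (itv m 0 c) X :=
    (disjoint_biUnion_right _ _ _).2 fun g hg => (hβ g (mem_range.1 hg)).1.symm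
  obtain ⟨b, -, hb⟩ := exists_mem_notMem_of_card_lt_card (s := univ.filter fun b : ZMod m =>
    b + b ∈ image₂ (fun u v => v - u - 1) X (itv m 0 c ∪ X)) (t := univ) (by
      refine lt_of_le_of_lt ((card_half _).trans (Nat.mul_le_mul_left 2 ((card_image₂_le _ _ _).trans
        (Nat.mul_le_mul x1 ((card_union_le _ _).trans (add_le_add (card_itv _ hcm).le x1)))))) ?_
      rw [card_univ, ZMod.card]; nlinarith)
  have x3 : Disjoint (itv m 0 c ∪ X) (X.image (b + b + 1 + ·)) := disjoint_right.2 fun v hv hv' => by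
    obtain ⟨u, hu, rfl⟩ := mem_image.1 hv
    exact hb (mem_filter.2 ⟨mem_univ _, mem_image₂.2 ⟨u, hu, _, hv', by ring⟩⟩)
  set J := X ∪ X.image (b + b + 1 + ·) with hJ
  have j1 : J.card ≤ 2 * ξ := (card_union_le _ _).trans (by
    have := (card_image_le (f := (b + b + 1 + ·))).trans x1
    omega)
  set ρ := (c - γ - J.card) / 8 with hρ
  have j2 : Disjoint (itv m 0 (8 * ρ)) J := Disjoint.mono_left (itv_mono 0 (by omega))
    (disjoint_union_right.2 ⟨x2, x3.mono_left subset_union_left⟩)
  have j3 : Bal (itv m 0 (8 * ρ) ∪ J) := Bal.union (by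
    rw [show 8 * ρ = 2 * (4 * ρ) by ring]; exact bal_itv _ (by omega))
    (bal_pair X b (x3.mono_left subset_union_right)) j2
  obtain ⟨y, hy⟩ := exists_shift U D hU (itv m 0 (8 * ρ) ∪ J)
  have j4 := j3.shift y
  have j5 : (J.image (y + ·)).card = J.card := card_image_of_injective _ (add_right_injective y)
  rw [image_union, itv_shift] at hy j4
  refine ⟨y, ρ, fun g => (K₀.image (β g + ·)).image (y + ·), J.image (y + ·), fun g => ?_,
    fun g hg g' hg' => ?_, ?_, by omega, ?_, by omega, by omega, j4, hy.trans ?_⟩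
  · simp only [image_image]
    convert k2 (y + β g) using 2
    ext x; simp [add_assoc]
  · exact (disjoint_image (add_right_injective y)).2 ((hβ g hg).2 g' hg')
  · rw [← biUnion_image]
    exact image_subset_image subset_union_left
  · rw [← itv_shift]
    exact (disjoint_image (add_right_injective y)).2 j2
  · refine Nat.mul_le_mul_left _ ((card_union_le _ _).trans ?_)
    rw [card_itv _ (by omega)]
    omega

end PlexL
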