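import Mathlib

/-! Cells of the addition table of a finite abelian group and their degree vectors. -/

namespace PlexL

open Finset

set_option linter.unusedSectionVars false

variable {G : Type} [AddCommGroup G] [DecidableEq G]

/-- row, column and symbol of a cell -/
def co (i : Fin 3) (x : G × G) : G := ![x.1, x.2, x.1 + x.2] i

/-- the three deleted lines -/
def zr (σ : G) (i : Fin 3) : G := ![0, 0, σ] i

/-- the cell lies on no deleted line -/
def Off (σ : G) (x : G × G) : Prop := x.1 ≠ 0 ∧ x.2 ≠ 0 ∧ x.1 + x.2 ≠ σ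

instance (σ : G) (x : G × G) : Decidable (Off σ x) := by unfold Off; infer_instance

/-- the basis vector of a line -/
def ev (i : Fin 3) (a : G) : Fin 3 × G → ℤ := Pi.single (i, a) 1

/-- the three lines through a cell -/
def vec (x : G × G) : Fin 3 × G → ℤ := ev 0 x.1 + ev 1 x.2 + ev 2 (x.1 + x.2)

/-- degree vector of a family of cells -/
def deg (A : Multiset (G × G)) : Fin 3 × G → ℤ := (A.map vec).sum

/-- vector of a family of lines of one type -/
def ind (i : Fin 3) (M : Multiset G) : Fin 3 × G → ℤ := (M.map (ev i)).sum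

/-- number of cells on a line -/
def cnt (A : Multiset (G × G)) (l : Fin 3 × G) : ℕ := (A.filter fun x => co l.1 x = l.2).card

@[simp] theorem co_zero (x : G × G) : co 0 x = x.1 := rfl
@[simp] theorem co_one (x : G × G) : co 1 x = x.2 := rfl
@[simp] theorem co_two (x : G × G) : co 2 x = x.1 + x.2 := rfl
@[simp] theorem zr_zero (σ : G) : zr σ 0 = 0 := rfl
@[simp] theorem zr_one (σ : G) : zr σ 1 = 0 := rfl
@[simp] theorem zr_two (σ : G) : zr σ 2 = σ := rfl

theorem off_iff {σ : G} {x : G × G} : Off σ x ↔ ∀ i, co i x ≠ zr σ i :=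
  ⟨fun h i => by
    fin_cases i
    exacts [h.1, h.2.1, h.2.2], fun h => ⟨h 0, h 1, h 2⟩⟩

theorem ev_apply (i : Fin 3) (a : G) (l : Fin 3 × G) :
    ev i a l = if l.1 = i ∧ l.2 = a then 1 else 0 := by
  simp [ev, Pi.single_apply, Prod.ext_iff]

theorem vec_apply (x : G × G) (l : Fin 3 × G) : vec x l = if co l.1 x = l.2 then 1 else 0 := by
  obtain ⟨i, a⟩ := l
  fin_cases i <;> simp [vec, ev_apply, eq_comm]

@[simp] theorem deg_zero : deg (0 : Multiset (G × G)) = 0 := rfl

@[simp] theorem deg_add (A B : Multiset (G × G)) : deg (A + B) = deg A + deg B := by simp [deg]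

@[simp] theorem deg_cons (x : G × G) (A : Multiset (G × G)) : deg (x ::ₘ A) = vec x + deg A := by
  simp [deg]

@[simp] theorem deg_singleton (x : G × G) : deg {x} = vec x := by simp [deg]

theorem deg_nsmul (k : ℕ) (A : Multiset (G × G)) : deg (k • A) = k • deg A := by
  simp [deg, Multiset.map_nsmul, Multiset.sum_nsmul]

theorem deg_val (K : Finset (G × G)) : deg K.val = ∑ x ∈ K, vec x := rfl

theorem deg_union {K K' : Finset (G × G)} (h : Disjoint K K') :
    deg (K ∪ K').val = deg K.val + deg K'.val := sum_union h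

theorem deg_sdiff {K K' : Finset (G × G)} (h : K' ⊆ K) :
    deg (K \ K').val = deg K.val - deg K'.val := sum_sdiff_eq_sub h

@[simp] theorem cnt_zero (l : Fin 3 × G) : cnt (0 : Multiset (G × G)) l = 0 := rfl

theorem cnt_add (A B : Multiset (G × G)) (l : Fin 3 × G) : cnt (A + B) l = cnt A l + cnt B l := by
  simp [cnt]

theorem cnt_cons (x : G × G) (A : Multiset (G × G)) (l : Fin 3 × G) :
    cnt (x ::ₘ A) l = (if co l.1 x = l.2 then 1 else 0) + cnt A l := by
  unfold cnt
  split_ifs with h <;> simp [h, add_comm]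

theorem deg_apply (A : Multiset (G × G)) (l : Fin 3 × G) : deg A l = cnt A l := by
  induction A using Multiset.induction_on with
  | empty => rfl
  | cons x A ih => rw [deg_cons, cnt_cons, Pi.add_apply, ih, vec_apply]; push_cast; rfl

theorem cnt_val (K : Finset (G × G)) (l : Fin 3 × G) :
    cnt K.val l = (K.filter fun x => co l.1 x = l.2).card := rfl

theorem cnt_mono {A B : Multiset (G × G)} (h : A ≤ B) (l : Fin 3 × G) : cnt A l ≤ cnt B l :=
  Multiset.card_le_card (Multiset.filter_le_filter _ h)

theorem cnt_subset {K K' : Finset (G × G)} (h : K ⊆ K') (l : Fin 3 × G) :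
    cnt K.val l ≤ cnt K'.val l := cnt_mono (val_le_iff.2 h) l

theorem cnt_union_le (K K' : Finset (G × G)) (l : Fin 3 × G) :
    cnt (K ∪ K').val l ≤ cnt K.val l + cnt K'.val l := by
  simp only [cnt_val, filter_union]; exact card_union_le _ _

theorem cnt_le_card (A : Multiset (G × G)) (l : Fin 3 × G) : cnt A l ≤ A.card :=
  Multiset.card_le_card (Multiset.filter_le _ _)

theorem cnt_off {σ : G} {A : Multiset (G × G)} (h : ∀ x ∈ A, Off σ x) (i : Fin 3) :
    cnt A (i, zr σ i) = 0 :=
  Multiset.card_eq_zero.2 (Multiset.filter_eq_nil.2 fun x hx => off_iff.1 (h x hx) i)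

@[simp] theorem ind_zero (i : Fin 3) : ind i (0 : Multiset G) = 0 := rfl

@[simp] theorem ind_add (i : Fin 3) (A B : Multiset G) : ind i (A + B) = ind i A + ind i B := by
  simp [ind]

@[simp] theorem ind_cons (i : Fin 3) (a : G) (A : Multiset G) :
    ind i (a ::ₘ A) = ev i a + ind i A := by simp [ind]

@[simp] theorem ind_singleton (i : Fin 3) (a : G) : ind i {a} = ev i a := by simp [ind]

theorem ind_nsmul (i : Fin 3) (k : ℕ) (A : Multiset G) : ind i (k • A) = k • ind i A := by
  simp [ind, Multiset.map_nsmul, Multiset.sum_nsmul]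

theorem ind_apply (i : Fin 3) (M : Multiset G) (l : Fin 3 × G) :
    ind i M l = if l.1 = i then M.count l.2 else 0 := by
  induction M using Multiset.induction_on with
  | empty => simp
  | cons a M ih =>
    rw [ind_cons, Pi.add_apply, ih, ev_apply, Multiset.count_cons]
    by_cases h : l.1 = i <;> by_cases h' : l.2 = a <;> simp [h, h', add_comm]

theorem sum_ind_apply (M : Fin 3 → Multiset G) (l : Fin 3 × G) :
    (∑ i, ind i (M i)) l = (M l.1).count l.2 := by
  simp [Finset.sum_apply, ind_apply]

theorem deg_eq_ind (A : Multiset (G × G)) : deg A = ∑ i, ind i (A.map (co i)) := by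
  induction A using Multiset.induction_on with
  | empty => simp
  | cons x A ih =>
    simp only [deg_cons, ih, Multiset.map_cons, ind_cons, sum_add_distrib, Fin.sum_univ_three]
    rfl

variable [Fintype G]

theorem sum_cnt (A : Multiset (G × G)) (i : Fin 3) : ∑ a, cnt A (i, a) = A.card := by
  induction A using Multiset.induction_on with
  | empty => simp
  | cons x A ih => simp [cnt_cons, sum_add_distrib, ih, add_comm]

/-- the defect of a vector -/
def dft (w : Fin 3 × G → ℤ) : G :=
  ∑ a, w (0, a) • a + ∑ a, w (1, a) • a - ∑ a, w (2, a) • a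

theorem dft_add (v w : Fin 3 × G → ℤ) : dft (v + w) = dft v + dft w := by
  simp only [dft, Pi.add_apply, add_smul, sum_add_distrib]; abel

theorem dft_sub (v w : Fin 3 × G → ℤ) : dft (v - w) = dft v - dft w := by
  simp only [dft, Pi.sub_apply, sub_smul, sum_sub_distrib]; abel

theorem dft_ev0 (a : G) : dft (ev 0 a) = a := by simp [dft, ev_apply]
theorem dft_ev1 (a : G) : dft (ev 1 a) = a := by simp [dft, ev_apply]
theorem dft_ev2 (a : G) : dft (ev 2 a) = -a := by simp [dft, ev_apply]

theorem dft_deg (A : Multiset (G × G)) : dft (deg A) = 0 := by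
  induction A using Multiset.induction_on with
  | empty => simp [dft]
  | cons x A ih => rw [deg_cons, dft_add, ih, vec, dft_add, dft_add, dft_ev0, dft_ev1, dft_ev2]; abel

end PlexL
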