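import Pool.Agent.Lib.MP_3d3eb4_co.PL.Defs

/-! M. Hall's theorem on diagonals of the addition table with prescribed symbols; layers. -/

namespace PlexL

open Finset

set_option linter.unusedSectionVars false

variable {G : Type} [AddCommGroup G] [DecidableEq G] [Fintype G]

namespace HallAux

theorem swap_mem {S : Finset G} {u v x : G} (hu : u ∈ S) (hv : v ∈ S) (hx : x ∈ S) :
    Equiv.swap u v x ∈ S := by
  rw [Equiv.swap_apply_def]
  split_ifs <;> assumption

theorem injOn_swap {S : Finset G} {f : G → G} (hf : Set.InjOn f S) {u v : G} (hu : u ∈ S)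
    (hv : v ∈ S) : Set.InjOn (fun x => f (Equiv.swap u v x)) S := fun _ hx _ hy h =>
  (Equiv.swap u v).injective (hf (swap_mem hu hv hx) (swap_mem hu hv hy) h)

/-- the exchange lemma, by induction on the set of indices still in play -/
theorem exch (b : G → G) (κ : G) (n : ℕ) : ∀ (S : Finset G) (a c : G → G) (y1 y2 : G),
    S.card = n → y1 ∈ S → y2 ∈ S → y1 ≠ y2 → Set.InjOn a S → Set.InjOn c S →
    (∀ x ∈ S, x ≠ y1 → x ≠ y2 → c x = a x + b x) →
    c y1 + c y2 = κ + b y2 → a y1 + a y2 + b y1 = κ →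
    (∀ x ∈ S, x ≠ y1 → ∃ z ∈ S, c z + a x = κ) →
    ∃ a' : G → G, Set.InjOn a' S ∧ Set.InjOn (fun x => a' x + b x) S ∧
      (∀ x ∈ S, ∃ u ∈ S, a' x = a u) ∧ (∀ x ∈ S, ∃ u ∈ S, a' x + b x = c u) := by
  induction n with
  | zero =>
    intro S a c y1 y2 hS h1
    rw [card_eq_zero] at hS
    simp [hS] at h1
  | succ n ih =>
    intro S a c y1 y2 hS h1 h2 h12 ha hc hb hs hκ hcl
    obtain ⟨x1, hx1, hx⟩ := hcl y2 h2 h12.symm
    have hx' : c x1 = a y1 + b y1 := by
      have : c x1 + a y2 = a y1 + b y1 + a y2 := by rw [hx, ← hκ]; abel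
      exact add_right_cancel this
    by_cases e1 : x1 = y1
    · subst e1
      have h22 : c y2 = a y2 + b y2 := by
        have : c x1 + c y2 = c x1 + (a y2 + b y2) := by rw [hs, ← hx]; abel
        exact add_left_cancel this
      have hall : ∀ x ∈ S, a x + b x = c x := fun x hxS => by
        by_cases p : x = x1
        · rw [p, hx']
        by_cases q : x = y2
        · rw [q, h22]
        exact (hb x hxS p q).symm
      exact ⟨a, ha, fun x hxS y hyS h => hc hxS hyS (by
        rw [← hall x hxS, ← hall y hyS]; exact h), fun x hxS => ⟨x, hxS, rfl⟩,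
        fun x hxS => ⟨x, hxS, hall x hxS⟩⟩
    by_cases e2 : x1 = y2
    · subst e2
      have h22 : c y1 = a x1 + b x1 := by
        have : c y1 + c x1 = a x1 + b x1 + c x1 := by rw [hs, ← hx]; abel
        exact add_right_cancel this
      have hall : ∀ x ∈ S, a x + b x = c (Equiv.swap y1 x1 x) := fun x hxS => by
        by_cases p : x = y1
        · rw [p, Equiv.swap_apply_left, hx']
        by_cases q : x = x1
        · rw [q, Equiv.swap_apply_right, h22]
        rw [Equiv.swap_apply_of_ne_of_ne p q]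
        exact (hb x hxS p q).symm
      exact ⟨a, ha, fun x hxS y hyS h => injOn_swap hc h1 h2 hxS hyS (by
        simp only [← hall x hxS, ← hall y hyS]; exact h), fun x hxS => ⟨x, hxS, rfl⟩,
        fun x hxS => ⟨_, swap_mem h1 h2 hxS, hall x hxS⟩⟩
    have hsub : ((S.erase y1 : Finset G) : Set G) ⊆ S := fun x hx => mem_of_mem_erase hx
    have m1 : x1 ∈ S.erase y1 := mem_erase.2 ⟨e1, hx1⟩
    have m2 : y2 ∈ S.erase y1 := mem_erase.2 ⟨h12.symm, h2⟩
    have hb1 : c x1 = a x1 + b x1 := hb x1 hx1 e1 e2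
    obtain ⟨a', i1, i2, r1, r2⟩ := ih (S.erase y1) (fun x => a (Equiv.swap x1 y2 x))
      (fun x => c (Equiv.swap x1 y1 x)) x1 y2 (by rw [card_erase_of_mem h1, hS]; rfl) m1 m2 e2
      ((injOn_swap ha hx1 h2).mono hsub) ((injOn_swap hc hx1 h1).mono hsub)
      (fun x hxS p q => by
        have r := (mem_erase.1 hxS).1
        simp only [Equiv.swap_apply_of_ne_of_ne p q, Equiv.swap_apply_of_ne_of_ne p r]
        exact hb x (mem_of_mem_erase hxS) r q)
      (by
        simp only [Equiv.swap_apply_left,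
          Equiv.swap_apply_of_ne_of_ne (Ne.symm e2) (Ne.symm h12)]
        exact hs)
      (by
        simp only [Equiv.swap_apply_left, Equiv.swap_apply_right]
        rw [← hx, hb1]; abel)
      (fun x hxS p => by
        have hm := swap_mem m1 m2 hxS
        obtain ⟨z, hz, hzz⟩ := hcl _ (mem_of_mem_erase hm) (mem_erase.1 hm).1
        have hz1 : z ≠ x1 := by
          rintro rfl
          have : a (Equiv.swap z y2 x) = a y2 := add_left_cancel (hzz.trans hx.symm)
          have h3 := ha (mem_of_mem_erase hm) h2 this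
          rw [Equiv.swap_apply_eq_iff, Equiv.swap_apply_right] at h3
          exact p h3
        refine ⟨Equiv.swap x1 y1 z, mem_erase.2 ⟨?_, swap_mem hx1 h1 hz⟩, ?_⟩
        · intro h3
          rw [Equiv.swap_apply_eq_iff, Equiv.swap_apply_right] at h3
          exact hz1 h3
        · simpa using hzz)
    have n1 : ∀ x ∈ S.erase y1, a' x ≠ a y1 := fun x hxS h => by
      obtain ⟨u, hu, hu'⟩ := r1 x hxS
      have hm := swap_mem m1 m2 hu
      exact (mem_erase.1 hm).1 (ha (mem_of_mem_erase hm) h1 (hu'.symm.trans h))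
    have n2 : ∀ x ∈ S.erase y1, a' x + b x ≠ a y1 + b y1 := fun x hxS h => by
      obtain ⟨u, hu, hu'⟩ := r2 x hxS
      have h3 := hc (swap_mem hx1 h1 (mem_of_mem_erase hu)) hx1 ((hu'.symm.trans h).trans hx'.symm)
      rw [Equiv.swap_apply_eq_iff, Equiv.swap_apply_left] at h3
      exact (mem_erase.1 hu).1 h3
    refine ⟨Function.update a' y1 (a y1), fun x hxS y hyS h => ?_, fun x hxS y hyS h => ?_,
      fun x hxS => ?_, fun x hxS => ?_⟩
    · by_cases p : x = y1 <;> by_cases q : y = y1
      · rw [p, q]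
      · rw [p, Function.update_self, Function.update_of_ne q] at h
        exact absurd h.symm (n1 y (mem_erase.2 ⟨q, hyS⟩))
      · rw [q, Function.update_self, Function.update_of_ne p] at h
        exact absurd h (n1 x (mem_erase.2 ⟨p, hxS⟩))
      · rw [Function.update_of_ne p, Function.update_of_ne q] at h
        exact i1 (mem_erase.2 ⟨p, hxS⟩) (mem_erase.2 ⟨q, hyS⟩) h
    · by_cases p : x = y1 <;> by_cases q : y = y1
      · rw [p, q]
      · simp only [p, Function.update_self, Function.update_of_ne q] at h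
        exact absurd h.symm (n2 y (mem_erase.2 ⟨q, hyS⟩))
      · simp only [q, Function.update_self, Function.update_of_ne p] at h
        exact absurd h (n2 x (mem_erase.2 ⟨p, hxS⟩))
      · simp only [Function.update_of_ne p, Function.update_of_ne q] at h
        exact i2 (mem_erase.2 ⟨p, hxS⟩) (mem_erase.2 ⟨q, hyS⟩) h
    · by_cases p : x = y1
      · exact ⟨y1, h1, by rw [p, Function.update_self]⟩
      · obtain ⟨u, hu, hu'⟩ := r1 x (mem_erase.2 ⟨p, hxS⟩)
        exact ⟨_, swap_mem hx1 h2 (mem_of_mem_erase hu), by rw [Function.update_of_ne p, hu']⟩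
    · by_cases p : x = y1
      · exact ⟨x1, hx1, by rw [p, Function.update_self, hx']⟩
      · obtain ⟨u, hu, hu'⟩ := r2 x (mem_erase.2 ⟨p, hxS⟩)
        exact ⟨_, swap_mem hx1 h1 (mem_of_mem_erase hu), by rw [Function.update_of_ne p, hu']⟩

theorem hall_aux (n : ℕ) : ∀ b : G → G, (univ.filter fun x => b x ≠ 0).card ≤ n →
    ∑ x, b x = 0 →
    ∃ a : G → G, Function.Injective a ∧ Function.Injective fun x => a x + b x := by
  induction n with
  | zero =>
    intro b hn _
    have h0 : ∀ x, b x = 0 := fun x => by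
      by_contra h
      have : x ∈ univ.filter fun x => b x ≠ 0 := by simpa using h
      rw [card_eq_zero.1 (Nat.le_zero.1 hn)] at this
      simp at this
    exact ⟨id, Function.injective_id, fun x y h => by simpa [h0] using h⟩
  | succ n ih =>
    intro b hn hb
    by_cases h0 : ∀ x, b x = 0
    · exact ⟨id, Function.injective_id, fun x y h => by simpa [h0] using h⟩
    obtain ⟨y1, h1⟩ := not_forall.1 h0
    obtain ⟨y2, h12, h2⟩ : ∃ y2, y2 ≠ y1 ∧ b y2 ≠ 0 := by
      by_contra h
      push Not at h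
      exact h1 ((sum_eq_single y1 (fun x _ hx => h x hx) (by simp)).symm.trans hb)
    obtain ⟨b0, p1, p2, p3, p4⟩ : ∃ b0 : G → G, b0 y1 = 0 ∧ b0 y2 = b y1 + b y2 ∧
        (∀ x, x ≠ y1 → x ≠ y2 → b0 x = b x) ∧ ∑ x, b0 x = 0 := by
      refine ⟨fun x => b x + (if x = y2 then b y1 else 0) - (if x = y1 then b y1 else 0),
        by simp [h12.symm], by simp [h12, add_comm], fun x p q => by simp [p, q], ?_⟩
      simp [sum_add_distrib, sum_sub_distrib, hb]
    obtain ⟨a, ha, hc⟩ := ih b0 (by
      have : (univ.filter fun x => b0 x ≠ 0) ⊆ (univ.filter fun x => b x ≠ 0).erase y1 := by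
        intro x hx
        have hx0 : b0 x ≠ 0 := by simpa using hx
        have p : x ≠ y1 := fun h => hx0 (h ▸ p1)
        refine mem_erase.2 ⟨p, ?_⟩
        by_cases q : x = y2
        · simpa [q] using h2
        · simpa [p3 x p q] using hx0
      have h3 := card_le_card this
      rw [card_erase_of_mem (by simpa using h1)] at h3
      omega) p4
    obtain ⟨a', i1, i2, -⟩ := exch b (a y1 + a y2 + b y1) _ univ a (fun x => a x + b0 x) y1 y2 rfl
      (mem_univ _) (mem_univ _) h12.symm ha.injOn hc.injOn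
      (fun x _ p q => by rw [p3 x p q]) (by rw [p1, p2]; abel) rfl
      (fun x _ _ => by
        obtain ⟨z, hz⟩ := (Finite.injective_iff_surjective.1 hc) (a y1 + a y2 + b y1 - a x)
        exact ⟨z, mem_univ _, by rw [show a z + b0 z = _ from hz]; abel⟩)
    exact ⟨a', fun x y h => i1 (mem_univ x) (mem_univ y) h,
      fun x y h => i2 (mem_univ x) (mem_univ y) h⟩

/-- the cell on the line `(i, B)` with parameter `α` -/
def cell (i : Fin 3) (B α : G) : G × G := ![(B, α), (α, B), (-α, α + B)] i

theorem co_cell (i : Fin 3) (B α : G) : co i (cell i B α) = B := by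
  fin_cases i <;> simp [cell]

theorem cell_inj (i : Fin 3) {B B' α α' : G} (h : cell i B α = cell i B' α') : α = α' := by
  fin_cases i <;> simp [cell] at h
  exacts [h.2, h.1, h.1]

theorem map_bij {g : G → G} (h : Function.Injective g) : univ.val.map g = univ.val :=
  Multiset.map_univ_val_equiv (Equiv.ofBijective g (Finite.injective_iff_bijective.1 h))

theorem co_cell_inj {i j : Fin 3} (hij : j ≠ i) {a b : G → G} (ha : Function.Injective a)
    (hc : Function.Injective fun x => a x + b x) (y : G) :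
    Function.Injective fun x => co j (cell i (b x) (a x + y)) := by
  have k1 : ∀ x x', a x + y = a x' + y → x = x' := fun x x' h => ha (add_right_cancel h)
  have k2 : ∀ x x', a x + y + b x = a x' + y + b x' → x = x' := fun x x' h =>
    hc (add_right_cancel (b := y) (by simpa only [add_right_comm _ y] using h))
  intro x x' h
  fin_cases i <;> fin_cases j
  · exact absurd rfl hij
  · exact k1 x x' h
  · exact k2 x x' (by rw [add_comm _ (b x), add_comm _ (b x')]; exact h)
  · exact k1 x x' h
  · exact absurd rfl hij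
  · exact k2 x x' h
  · exact k1 x x' (neg_injective h)
  · exact k2 x x' h
  · exact absurd rfl hij

end HallAux

open HallAux

theorem hall (b : G → G) (hb : ∑ x, b x = 0) :
    ∃ a : G → G, Function.Bijective a ∧ Function.Bijective fun x => a x + b x := by
  obtain ⟨a, h1, h2⟩ := hall_aux _ b le_rfl hb
  exact ⟨a, Finite.injective_iff_bijective.1 h1, Finite.injective_iff_bijective.1 h2⟩

theorem layer (i : Fin 3) (b : G → G) (hb : ∑ x, b x = 0) (Q : Finset (G × G)) (q : ℕ)
    (hQ : ∀ a, cnt Q.val (i, a) ≤ q) : ∃ Λ : Finset (G × G),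
      deg Λ.val = ind i (univ.val.map b) + ∑ j ∈ univ.erase i, ind j univ.val ∧
      (Λ ∩ Q).card ≤ q := by
  obtain ⟨a, ⟨ha, -⟩, ⟨hc, -⟩⟩ := hall b hb
  have hs : ∑ y : G, (univ.filter fun x => cell i (b x) (a x + y) ∈ Q).card ≤ ∑ _y : G, q := by
    simp only [card_filter]
    rw [sum_comm]
    refine sum_le_sum fun x _ => le_trans ?_ (hQ (b x))
    rw [← card_filter, cnt_val]
    refine card_le_card_of_injOn (fun y => cell i (b x) (a x + y)) (fun y hy => ?_)
      fun y _ y' _ h => add_left_cancel (cell_inj i h)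
    have hy' : cell i (b x) (a x + y) ∈ Q := by simpa using hy
    exact mem_coe.2 (mem_filter.2 ⟨hy', co_cell i _ _⟩)
  obtain ⟨y, -, hy⟩ := exists_le_of_sum_le univ_nonempty hs
  have hf : Function.Injective fun x => cell i (b x) (a x + y) := fun x x' h =>
    ha (add_right_cancel (cell_inj i h))
  refine ⟨univ.map ⟨_, hf⟩, ?_, le_trans ?_ hy⟩
  · rw [deg_eq_ind, ← add_sum_erase _ _ (mem_univ i), map_val]
    simp only [Multiset.map_map, Function.Embedding.coeFn_mk, Function.comp_def, co_cell]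
    congr 1
    refine sum_congr rfl fun j hj => ?_
    rw [map_bij (co_cell_inj (mem_erase.1 hj).1 ha hc y)]
  · refine le_trans (card_le_card (t := (univ.filter fun x => cell i (b x) (a x + y) ∈ Q).map
      ⟨_, hf⟩) fun z hz => ?_) (card_map _).le
    obtain ⟨h1, h2⟩ := mem_inter.1 hz
    obtain ⟨x, -, rfl⟩ := mem_map.1 h1
    exact mem_map.2 ⟨x, mem_filter.2 ⟨mem_univ _, h2⟩, rfl⟩

/-- `X` = new cells, `E` = cells that collide, `Zs` = cells on deleted lines -/
def Hal (σ : G) (Q : Finset (G × G)) (L q : ℕ) (v : Fin 3 × G → ℤ) : Prop :=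
  ∃ (X : Finset (G × G)) (E Zs : Multiset (G × G)) (N : Fin 3 → Multiset G), Disjoint X Q ∧
    (∀ x ∈ X, Off σ x) ∧ (∀ x ∈ E, Off σ x) ∧ E.card ≤ L * q ∧ L ≤ Zs.card ∧ Zs.card ≤ 3 * L ∧
    (∀ i, (N i).card = L) ∧ deg X.val + deg E + deg Zs = v + ∑ i, ind i (N i)

namespace HallAux

/-- the lines covered by `L` layers of type `i` -/
def T (σ : G) (i : Fin 3) (M : Multiset G) (L : ℕ) (k : Fin 3) : Multiset G :=
  if k = i then M else L • (univ.erase (zr σ k)).val

theorem exists_enum (m : Multiset G) (h : m.card = Fintype.card G) :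
    ∃ b : G → G, univ.val.map b = m := by
  let e : G ≃ m.ToType := Fintype.equivOfCardEq (by rw [Multiset.card_coe, h])
  refine ⟨fun x => (e x : G), ?_⟩
  have := Multiset.map_univ_coe m
  rw [← Multiset.map_univ_val_equiv e, Multiset.map_map] at this
  exact this

theorem step (σ : G) (Q : Finset (G × G)) (L q : ℕ) (v : Fin 3 × G → ℤ) (i : Fin 3)
    (M : Multiset G) (hM : M.card = Fintype.card G - 1) (hz : zr σ i ∉ M) (h : Hal σ Q L q v)
    (hq : ∀ l, (cnt Q.val l : ℤ) + v l + L ≤ q) :
    Hal σ Q (L + 1) q (v + ∑ k, ind k (T σ i M 1 k)) := by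
  obtain ⟨X, E, Zs, N, hd, hX, hE, cE, c1, c2, cN, hv⟩ := h
  obtain ⟨b, hb⟩ := exists_enum ((-M.sum) ::ₘ M) (by
    have := Fintype.card_pos (α := G)
    rw [Multiset.card_cons, hM]; omega)
  have hb0 : ∑ x, b x = 0 := by
    rw [Finset.sum, hb, Multiset.sum_cons, neg_add_cancel]
  obtain ⟨Λ, hΛ, cΛ⟩ := layer i b hb0 (Q ∪ X) q fun a => by
    have h1 := cnt_union_le Q X (i, a)
    have h2 := congrFun hv (i, a)
    simp only [Pi.add_apply, deg_apply, sum_ind_apply] at h2
    have h3 := Multiset.count_le_card a (N i)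
    have h4 := hq (i, a)
    rw [cN] at h3
    omega
  set nw : Fin 3 → G := fun k => if k = i then -M.sum else zr σ k with hnw
  have hΛ' : deg Λ.val = ∑ k, ind k (nw k ::ₘ T σ i M 1 k) := by
    rw [hΛ, hb, ← add_sum_erase _ _ (mem_univ i)]
    congr 1
    · simp [hnw, T]
    refine sum_congr rfl fun j hj => ?_
    have := (mem_erase.1 hj).1
    simp only [hnw, T, this, if_false, one_nsmul, erase_val]
    rw [Multiset.cons_erase (mem_univ _)]
  have hc : ∀ k, cnt Λ.val (k, zr σ k) = if zr σ k = nw k then 1 else 0 := fun k => by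
    have h2 := congrFun hΛ' (k, zr σ k)
    rw [deg_apply, sum_ind_apply, Multiset.count_cons, Multiset.count_eq_zero.2, zero_add] at h2
    · exact_mod_cast h2
    by_cases p : k = i
    · subst p; simpa [T] using hz
    · simp only [T, p, if_false, one_nsmul]
      exact notMem_erase (zr σ k) univ
  refine ⟨X ∪ (Λ.filter (Off σ)).filter (· ∉ Q ∪ X),
    E + ((Λ.filter (Off σ)).filter (· ∈ Q ∪ X)).val, Zs + (Λ.filter (¬ Off σ ·)).val,
    fun k => nw k ::ₘ N k, ?_, ?_, ?_, ?_, ?_, ?_, fun k => by rw [Multiset.card_cons, cN], ?_⟩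
  · refine disjoint_union_left.2 ⟨hd, disjoint_left.2 fun x hx hx' => ?_⟩
    exact (mem_filter.1 hx).2 (mem_union_left _ hx')
  · intro x hx
    rcases mem_union.1 hx with hx | hx
    exacts [hX x hx, (mem_filter.1 (mem_filter.1 hx).1).2]
  · intro x hx
    rcases Multiset.mem_add.1 hx with hx | hx
    exacts [hE x hx, (mem_filter.1 (mem_filter.1 hx).1).2]
  · have : ((Λ.filter (Off σ)).filter (· ∈ Q ∪ X)).card ≤ (Λ ∩ (Q ∪ X)).card :=
      card_le_card fun x hx =>
        mem_inter.2 ⟨(mem_filter.1 (mem_filter.1 hx).1).1, (mem_filter.1 hx).2⟩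
    rw [Multiset.card_add, card_val, add_mul]
    omega
  · obtain ⟨j, hj⟩ := exists_ne i
    have h1 := hc j
    rw [if_pos (by simp [hnw, hj]), cnt_val] at h1
    obtain ⟨x, hx⟩ := card_pos.1 (h1 ▸ Nat.one_pos)
    have : 0 < (Λ.filter (¬ Off σ ·)).card := card_pos.2 ⟨x, mem_filter.2 ⟨(mem_filter.1 hx).1,
      fun ho => off_iff.1 ho j (mem_filter.1 hx).2⟩⟩
    rw [Multiset.card_add, card_val]
    omega
  · have h1 : Λ.filter (¬ Off σ ·) ⊆
        univ.biUnion fun k : Fin 3 => Λ.filter fun x => co k x = zr σ k := fun x hx => by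
      obtain ⟨h1, h2⟩ := mem_filter.1 hx
      rw [off_iff] at h2
      push Not at h2
      obtain ⟨k, hk⟩ := h2
      exact mem_biUnion.2 ⟨k, mem_univ _, mem_filter.2 ⟨h1, hk⟩⟩
    have h2 := (card_le_card h1).trans (card_biUnion_le_card_mul _ _ 1 fun k _ => by
      have := hc k
      rw [cnt_val] at this
      refine this.le.trans ?_
      split_ifs <;> omega)
    rw [Multiset.card_add, card_val]
    simp only [card_univ, Fintype.card_fin] at h2
    omega
  · have h1 : deg Λ.val = deg ((Λ.filter (Off σ)).filter (· ∈ Q ∪ X)).val +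
        deg ((Λ.filter (Off σ)).filter (· ∉ Q ∪ X)).val + deg (Λ.filter (¬ Off σ ·)).val := by
      simp only [deg_val, sum_filter_add_sum_filter_not]
    have h2 : Disjoint X ((Λ.filter (Off σ)).filter (· ∉ Q ∪ X)) :=
      disjoint_right.2 fun x hx hx' => (mem_filter.1 hx).2 (mem_union_right _ hx')
    rw [deg_union h2, deg_add, deg_add]
    simp only [ind_cons, sum_add_distrib] at hΛ' ⊢
    linear_combination hv + hΛ' - h1

theorem steps (σ : G) (Q : Finset (G × G)) (L q : ℕ) (v : Fin 3 × G → ℤ) (i : Fin 3)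
    (h : Hal σ Q L q v) (K : ℕ) : ∀ M : Multiset G, M.card = K * (Fintype.card G - 1) →
    zr σ i ∉ M →
    (∀ l, (cnt Q.val l : ℤ) + (v + ∑ k, ind k (T σ i M K k)) l + (L + K : ℕ) ≤ q) →
    Hal σ Q (L + K) q (v + ∑ k, ind k (T σ i M K k)) := by
  induction K with
  | zero =>
    intro M hM _ _
    rw [zero_mul, Multiset.card_eq_zero] at hM
    simpa [T, hM] using h
  | succ K ih =>
    intro M hM hz hq
    obtain ⟨M', hM'⟩ := Multiset.card_pos_iff_exists_mem.1
      (show 0 < (Multiset.powersetCard (Fintype.card G - 1) M).card by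
        rw [Multiset.card_powersetCard]
        exact Nat.choose_pos (by rw [hM, add_mul]; omega))
    obtain ⟨h1, h2⟩ := Multiset.mem_powersetCard.1 hM'
    obtain ⟨M1, rfl⟩ := exists_add_of_le h1
    have e : ∑ k, ind k (T σ i (M' + M1) (K + 1) k) =
        ∑ k, ind k (T σ i M1 K k) + ∑ k, ind k (T σ i M' 1 k) := by
      rw [← sum_add_distrib]
      refine sum_congr rfl fun k _ => ?_
      rw [← ind_add]
      congr 1
      unfold T
      split_ifs
      exacts [add_comm _ _, add_nsmul _ _ _]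
    have hq' : ∀ l, (cnt Q.val l : ℤ) + (v + ∑ k, ind k (T σ i M1 K k)) l + (L + K : ℕ) ≤ q :=
      fun l => by
        have := hq l
        rw [e] at this
        simp only [Pi.add_apply, sum_ind_apply] at this ⊢
        omega
    rw [e, ← add_assoc, ← add_assoc]
    exact step σ Q (L + K) q _ i M' h2 (fun p => hz (Multiset.mem_add.2 (Or.inl p)))
      (ih M1 (by rw [Multiset.card_add, h2, add_mul] at hM; omega)
        (fun p => hz (Multiset.mem_add.2 (Or.inr p))) hq') hq'

end HallAux

theorem layers (σ : G) (M : Fin 3 → Multiset G) (L β q : ℕ)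
    (hM : ∀ i, (M i).card = L * (Fintype.card G - 1)) (hz : ∀ i, zr σ i ∉ M i)
    (hβ : ∀ i a, (M i).count a ≤ β) (Q : Finset (G × G)) (hQ : ∀ l, cnt Q.val l ≤ q) :
    Hal σ Q (3 * L) (q + β + 5 * L)
      (∑ i, ind i (M i + (2 * L) • (univ.erase (zr σ i)).val)) := by
  set w : Fin 3 → Fin 3 × G → ℤ := fun i => ∑ k, ind k (T σ i (M i) L k) with hw
  have w0 : ∀ i l, 0 ≤ w i l := fun i l => by
    simp only [hw, sum_ind_apply]; positivity
  have e : 0 + w 0 + w 1 + w 2 = ∑ i, ind i (M i + (2 * L) • (univ.erase (zr σ i)).val) := by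
    simp only [hw, Fin.sum_univ_three, T, two_mul, add_nsmul, ind_add]
    simp
    abel
  have hb : ∀ l, w 0 l + w 1 l + w 2 l ≤ β + 2 * L := fun l => by
    have h1 := congrFun e l
    simp only [Pi.add_apply, zero_add, sum_ind_apply, Multiset.count_add,
      Multiset.count_nsmul] at h1
    have h2 := hβ l.1 l.2
    have h3 : (univ.erase (zr σ l.1)).val.count l.2 ≤ 1 :=
      Multiset.nodup_iff_count_le_one.1 (univ.erase (zr σ l.1)).nodup _
    have h4 := Nat.mul_le_mul_left (2 * L) h3
    rw [h1]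
    exact_mod_cast (by omega)
  have s0 : Hal σ Q 0 (q + β + 5 * L) 0 :=
    ⟨∅, 0, 0, fun _ => 0, disjoint_empty_left _, by simp, by simp, by simp, by simp, by simp,
      by simp, by simp⟩
  have s1 : Hal σ Q (0 + L) _ (0 + w 0) := steps σ Q _ _ _ 0 s0 L (M 0) (hM 0) (hz 0) fun l => by
    have := hb l; have := w0 1 l; have := w0 2 l; have := hQ l
    change _ + (0 + w 0 l) + _ ≤ _
    omega
  have s2 : Hal σ Q (0 + L + L) _ (0 + w 0 + w 1) :=
    steps σ Q _ _ _ 1 s1 L (M 1) (hM 1) (hz 1) fun l => by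
      have := hb l; have := w0 2 l; have := hQ l
      change _ + (0 + w 0 l + w 1 l) + _ ≤ _
      omega
  have s3 : Hal σ Q (0 + L + L + L) _ (0 + w 0 + w 1 + w 2) :=
    steps σ Q _ _ _ 2 s2 L (M 2) (hM 2) (hz 2) fun l => by
      have := hb l; have := hQ l
      change _ + (0 + w 0 l + w 1 l + w 2 l) + _ ≤ _
      omega
  rwa [e, show 0 + L + L + L = 3 * L by ring] at s3

end PlexL
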