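import Pool.Agent.Lib.MP_3d3eb4_co.PL.Diag
import Pool.Agent.Lib.MP_3d3eb4_co.PL.Hall

/-! Nearly regular degrees are realised by cells outside a sparse set. -/

namespace PlexL

open Finset

set_option linter.unusedSectionVars false

variable {m : ℕ} [NeZero m]

theorem exists_off (σ : ZMod m) (hm : 3 ≤ m) : ∃ x, Off σ x := by
  obtain ⟨a, -, ha⟩ := exists_mem_notMem_of_card_lt_card (s := {0}) (t := (univ : Finset (ZMod m)))
    (by rw [card_singleton, card_univ, ZMod.card]; omega)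
  obtain ⟨b, -, hb⟩ := exists_mem_notMem_of_card_lt_card (s := {0, σ - a})
    (t := (univ : Finset (ZMod m))) (lt_of_le_of_lt card_le_two (by rw [card_univ, ZMod.card]; omega))
  simp only [mem_insert, mem_singleton, not_or] at ha hb
  exact ⟨(a, b), ha, hb.1, fun h => hb.2 (eq_sub_of_add_eq' h)⟩

theorem count_map_co (A : Multiset (ZMod m × ZMod m)) (i : Fin 3) (a : ZMod m) :
    (A.map (co i)).count a = cnt A (i, a) := by
  have := congrFun (deg_eq_ind A) (i, a)
  rw [deg_apply, sum_ind_apply] at this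
  exact_mod_cast this.symm

theorem complete (σ : ZMod m) {s : ℕ} (hs : Even s) (hs' : 4 ≤ s) (hm : 2 ^ (s + 2) ≤ m)
    (hm' : m ≤ 2 ^ (s + 4)) (U : Finset (ZMod m × ZMod m)) (D c N : ℕ)
    (hU : ∀ l, cnt U.val l ≤ D) (t : Fin 3 → Multiset (ZMod m)) (hz : ∀ i, zr σ i ∉ t i)
    (h1 : ∀ i a, a ≠ zr σ i → c ≤ (t i).count a) (h2 : ∀ i a, (t i).count a ≤ c + D)
    (hN : ∀ i, (t i).card = N) (hd : dft (∑ i, ind i (t i)) = 0)
    (hc : 100000000 * ((D + 1) * (s + 2)) ≤ c)
    (hc' : 100000000 * ((D + 1) * (s + 2) * c) ≤ m) :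
    ∃ X : Finset (ZMod m × ZMod m), (∀ x ∈ X, Off σ x ∧ x ∉ U) ∧ deg X.val = ∑ i, ind i (t i) := by
  obtain ⟨Λ, hΛ⟩ : ∃ Λ, Λ = (D + 1) * (s + 2) := ⟨_, rfl⟩
  rw [← hΛ] at hc hc'
  have l1 : 6 * (D + 1) ≤ Λ := by rw [hΛ, mul_comm]; exact Nat.mul_le_mul_left _ (by omega)
  have l2 : (D + 9) * (s + 2) ≤ 9 * Λ := by
    rw [hΛ, ← mul_assoc]; exact Nat.mul_le_mul_right _ (by omega)
  have l3 : 100000000 * c ≤ m :=
    le_trans (Nat.mul_le_mul_left _ (Nat.le_mul_of_pos_left _ (by omega))) hc'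
  obtain ⟨N₀, hN₀⟩ : ∃ N₀, N₀ = 27 * (D + 9) := ⟨_, rfl⟩
  have l4 : 3 * N₀ * (s + 2) ≤ 729 * Λ := by rw [hN₀]; linarith
  obtain ⟨y, ρ, K, J₁, k1, k2, k3, k4, k5, k6, k7, k8, k9⟩ := exists_diags σ hs hs' hm hm' U D
    (fun a => hU _) (3 * N₀) c (2 * D + 12) (40000 * Λ) (by omega)
    (by linarith) (by omega) (by omega) (by
      have : 0 < Λ * c := Nat.mul_pos (by omega) (by omega)
      linarith)
  obtain ⟨n, hn⟩ : ∃ n, m = n + 1 := ⟨m - 1, by omega⟩
  have hn' : m - 1 = n := by omega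
  have hce : ∀ z : ZMod m, (univ.erase z).card = n := fun z => by simp [ZMod.card, hn']
  obtain ⟨J, hJ⟩ : ∃ J, J = itv m y (8 * ρ) ∪ J₁ := ⟨_, rfl⟩
  rw [← hJ] at k8 k9
  have j1 : J.card = 8 * ρ + J₁.card := by
    rw [hJ, card_union_of_disjoint k5, card_itv _ (by omega)]
  obtain ⟨K₀, hK₀⟩ : ∃ K₀, K₀ = (dg J).filter (Off σ) := ⟨_, rfl⟩
  have hK : ∀ x, x ∈ K₀ ↔ x.2 - x.1 ∈ itv m y (8 * ρ) ∪ J₁ ∧ Off σ x := fun x => by
    rw [hK₀, mem_filter, mem_dg, hJ]
  have hK' : K₀ ⊆ dg J := hK₀ ▸ filter_subset _ _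
  obtain ⟨a1, a2⟩ := card_dg_off σ J
  obtain ⟨-, a3⟩ := card_dg_off σ (itv m y 6)
  rw [card_itv _ (by omega)] at a3
  rw [hn'] at a1 a2 a3
  rw [← hK₀] at a1 a2
  have n0 : N = ∑ a ∈ univ.erase (0 : ZMod m), (t 0).count a := by
    rw [← hN 0, ← Multiset.sum_count_eq_card (s := univ) fun _ _ => mem_univ _,
      ← add_sum_erase _ _ (mem_univ (0 : ZMod m)), Multiset.count_eq_zero.2 (show (0 : ZMod m) ∉ t 0 from hz 0), zero_add]
  have n1 : n * c ≤ N := by
    rw [n0, ← hce 0]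
    exact card_nsmul_le_sum _ _ c fun a ha => h1 0 a (ne_of_mem_erase ha)
  have n2 : N ≤ n * (c + D) := by
    rw [n0, ← hce 0]
    exact sum_le_card_nsmul _ _ _ fun a _ => h2 0 a
  have hn0 : 0 < 3 * n := by omega
  obtain ⟨γ, hγ⟩ : ∃ γ, c = J.card + γ := ⟨c - J.card, by omega⟩
  obtain ⟨L, hL⟩ : ∃ L, L = (N - K₀.card) / (3 * n) + 1 := ⟨_, rfl⟩
  have b1 : N - K₀.card < 3 * n * L := hL ▸ Nat.lt_mul_div_succ _ hn0
  have b2 : 3 * n * L ≤ N - K₀.card + 3 * n := by
    rw [hL, mul_add, mul_one]; exact Nat.add_le_add_right (Nat.mul_div_le _ _) _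
  clear hL n0
  have b3 : K₀.card ≤ N := a1.trans ((Nat.mul_le_mul_left _ (by omega)).trans n1)
  have b4 : 3 * L ≤ γ + D + 5 := Nat.le_of_mul_le_mul_left (c := n) (by
    rw [hγ] at n2
    have : N - K₀.card + K₀.card = N := by omega
    nlinarith) (by omega)
  obtain ⟨Pd, p1, p2⟩ := exists_subset_card_eq (s := (dg (itv m y 6)).filter (Off σ))
    (n := 3 * n * L - (N - K₀.card)) (by omega)
  have p3 : ∀ x ∈ Pd, x.2 - x.1 ∈ itv m y (8 * ρ) := fun x hx =>
    itv_mono y (by omega) (mem_dg.1 (mem_filter.1 (p1 hx)).1)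
  have p4 : Pd ⊆ K₀ := fun x hx =>
    (hK x).2 ⟨mem_union_left _ (p3 x hx), (mem_filter.1 (p1 hx)).2⟩
  have p5 : ∀ l, cnt Pd.val l ≤ 12 := fun l => (cnt_subset (p1.trans (filter_subset _ _)) l).trans
    ((cnt_dg_le _ l).trans (by rw [card_itv _ (by omega)]))
  obtain ⟨K₁, hK₁⟩ : ∃ K₁, K₁ = K₀ \ Pd := ⟨_, rfl⟩
  have hK₂ : K₁ ⊆ K₀ := hK₁ ▸ sdiff_subset
  have c0 : ∀ x ∈ K₁, Off σ x := fun x hx => ((hK x).1 (hK₂ hx)).2
  have c1 : ∀ l, cnt K₁.val l ≤ J.card := fun l =>
    (cnt_subset (hK₂.trans hK') l).trans (k8.cnt l).le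
  have c2 : ∀ i a, a ≠ zr σ i → J.card ≤ cnt K₁.val (i, a) + 14 := fun i a ha => by
    have d1 := cnt_filter_off σ (dg J) i a ha
    have d2 := cnt_union_le (K₀ \ Pd) Pd (i, a)
    rw [sdiff_union_of_subset p4, ← hK₁] at d2
    rw [k8.cnt, ← hK₀] at d1
    have := p5 (i, a)
    omega
  have c3 : K₁.card + Pd.card = K₀.card := hK₁ ▸ card_sdiff_add_card_eq_card p4
  let B : Fin 3 → Multiset (ZMod m) := fun i =>
    K₁.val.map (co i) + (2 * L) • (univ.erase (zr σ i)).val
  have e0 : ∀ i a, (B i).count a =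
      cnt K₁.val (i, a) + 2 * L * if a = zr σ i then 0 else 1 := fun i a => by
    simp only [B, Multiset.count_add, count_map_co, Multiset.count_nsmul,
      Multiset.count_eq_of_nodup (univ.erase _).nodup, mem_val, mem_erase, mem_univ, and_true,
      ite_not]
  have e1 : ∀ i, B i ≤ t i := fun i => Multiset.le_iff_count.2 fun a => by
    rw [e0]
    split_ifs with h
    · rw [h, cnt_off c0]; simp
    · have := h1 i a h
      have := c1 (i, a)
      omega
  obtain ⟨X, E, Zs, Nn, x1, x2, x3, x4, x5, x6, x7, x8⟩ := layers σ (fun i => t i - B i) L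
    (3 * D + 34) (D + c) (fun i => by
      rw [Multiset.card_sub (e1 i), hN, ZMod.card, hn']
      simp only [B, Multiset.card_add, Multiset.card_map, Multiset.card_nsmul, card_val, hce]
      have : 3 * n * L = 2 * L * n + L * n := by ring
      omega)
    (fun i h => hz i (Multiset.mem_of_le (Multiset.sub_le_self _ _) h))
    (fun i a => by
      rw [Multiset.count_sub, e0]
      split_ifs with h
      · rw [h, Multiset.count_eq_zero.2 (hz i)]; simp
      · have := c2 i a h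
        have := h2 i a
        omega) (U ∪ K₁) fun l => (cnt_union_le _ _ l).trans
      (add_le_add (hU l) ((c1 l).trans (by omega)))
  have e2 : ∑ i, ind i (t i - B i + (2 * L) • (univ.erase (zr σ i)).val) =
      ∑ i, ind i (t i) - deg K₁.val := by
    rw [deg_eq_ind, ← sum_sub_distrib]
    refine sum_congr rfl fun i _ => eq_sub_of_add_eq ?_
    rw [← ind_add, add_assoc, add_comm _ (Multiset.map _ _), Multiset.sub_add_cancel (e1 i)]
  have x9 : ∀ l, cnt X.val l + cnt E l ≤ 3 * D + 34 + 5 * L := by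
    rintro ⟨i, a⟩
    have f1 := congrFun x8 (i, a)
    simp only [Pi.add_apply, deg_apply, sum_ind_apply, Multiset.count_add, Multiset.count_sub, e0,
      Multiset.count_nsmul, Multiset.count_eq_of_nodup (univ.erase _).nodup, mem_val, mem_erase,
      mem_univ, and_true, ite_not] at f1
    have f2 := (Multiset.count_le_card a (Nn i)).trans (x7 i).le
    split_ifs at f1 with h
    · rw [h, Multiset.count_eq_zero.2 (hz i)] at f1
      rw [h] at f2 ⊢
      omega
    · have := c2 i a h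
      have := h2 i a
      omega
  rw [e2] at x8
  obtain ⟨x₀, hx₀⟩ := exists_off σ (by omega)
  obtain ⟨κ, hκ⟩ : ∃ κ, Zs.card = 3 * L + κ := ⟨Zs.card - 3 * L, by omega⟩
  have o1 : ∀ x ∈ κ • ({x₀} : Multiset (ZMod m × ZMod m)), Off σ x := fun x hx => by
    rw [Multiset.mem_singleton.1 (Multiset.mem_of_mem_nsmul hx)]; exact hx₀
  have e3 : ∑ i, ind i (Zs.map (co i)) - ∑ i, ind i (Nn i + (κ • {x₀} : Multiset _).map (co i)) =
      ∑ i, ind i (t i) - deg K₁.val - deg X.val - deg E - deg (κ • {x₀}) := by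
    simp only [ind_add, sum_add_distrib, ← deg_eq_ind]
    linear_combination x8
  obtain ⟨A, R, r1, r2, r3, r4⟩ := fix_all (N := N₀) (by rw [ZMod.card]; omega) k1 k2
    (fun i => Zs.map (co i)) (fun i => Nn i + (κ • {x₀} : Multiset _).map (co i)) Zs.card
    (fun i => Multiset.card_map _ _) (fun i => by
      rw [Multiset.card_add, x7, Multiset.card_map, Multiset.card_nsmul, Multiset.card_singleton]
      omega) (by omega) (fun i => by
      have := congrFun e3 (i, zr σ i)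
      simp only [Pi.sub_apply, sum_ind_apply, deg_apply, cnt_off c0, cnt_off x2, cnt_off x3,
        cnt_off o1, Multiset.count_eq_zero.2 (hz i)] at this
      exact Int.natCast_inj.1 (sub_eq_zero.1 (by simpa using this)))
    (by rw [e3]; simp only [dft_sub, dft_deg, hd, sub_self])
  rw [e3] at r4
  replace r2 : ∀ x ∈ R, Off σ x ∧ x.2 - x.1 ∈ J₁ := fun x hx => ⟨(r2 x hx).1, k3 (r2 x hx).2⟩
  have r5 : R ⊆ K₁ := fun x hx => by
    rw [hK₁]
    exact mem_sdiff.2 ⟨(hK x).2 ⟨mem_union_right _ (r2 x hx).2, (r2 x hx).1⟩,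
      fun h => disjoint_left.1 k5 (p3 x h) (r2 x hx).2⟩
  have r6 : A.card ≤ 729 * Λ := r3.trans l4
  have u1 : ((K₁ \ R) ∩ U).card ≤ D * c := (card_le_card (inter_subset_inter_right
    (sdiff_subset.trans (hK₂.trans hK')))).trans k9
  have u2 : E.card ≤ 54 * ((D + 1) * c) := x4.trans (by
    rw [show 54 * ((D + 1) * c) = 27 * (D + 1) * (2 * c) by ring]
    exact Nat.mul_le_mul (by omega) (by omega))
  obtain ⟨K', s1, s2⟩ := switch_all m σ y ρ (170000 * Λ) (c / 1000) (600000 * (D + 1))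
    (U ∪ Pd ∪ X ∪ dg J₁) ((K₁ \ R) \ U ∪ X) (((K₁ \ R) ∩ U).val + E + A + κ • {x₀}) (by omega)
    (by omega) (by omega)
    (fun l => by
      have d1 := cnt_union_le (U ∪ Pd ∪ X) (dg J₁) l
      have d2 := cnt_union_le (U ∪ Pd) X l
      have d3 := cnt_union_le U Pd l
      have := hU l
      have := p5 l
      have := x9 l
      have := cnt_dg_le J₁ l
      omega)
    (fun l => by
      have d1 := cnt_subset (inter_subset_right (s₁ := K₁ \ R) (s₂ := U)) l
      have d2 := cnt_le_card A l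
      have d3 := cnt_le_card (κ • {x₀}) l
      rw [Multiset.card_nsmul, Multiset.card_singleton] at d3
      have := hU l
      have := x9 l
      simp only [cnt_add]
      omega)
    (fun x hx => by
      simp only [Multiset.mem_add, mem_val] at hx
      rcases hx with ((h | h) | h) | h
      exacts [c0 x (mem_sdiff.1 (mem_inter.1 h).1).1, x3 x h, r1 x h, o1 x h])
    (by
      simp only [Multiset.card_add, card_val, Multiset.card_nsmul, Multiset.card_singleton]
      have d1 : c ≤ 2000 * (c / 1000) := by omega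
      have d2 := Nat.mul_le_mul_left (D + 1) d1
      have d3 : (D + 1) * c = D * c + c := by ring
      have d4 : c / 1000 * (600000 * (D + 1)) = 300 * ((D + 1) * (2000 * (c / 1000))) := by ring
      omega)
    (fun x hx hT => by
      simp only [mem_union, not_or, mem_dg] at hT
      simp only [mem_union, mem_sdiff, hK₁, hK, hT.1.1.1, hT.1.1.2,
        hT.1.2, hT.2, hx, or_false, and_true, not_false_iff]
      exact and_iff_left fun h => hT.2 (r2 x h).2)
  refine ⟨K', fun x hx => ?_, ?_⟩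
  · rcases s1 x hx with h | h
    · rcases mem_union.1 h with h | h
      · exact ⟨c0 x (mem_sdiff.1 (mem_sdiff.1 h).1).1, (mem_sdiff.1 h).2⟩
      · exact ⟨x2 x h, fun k => disjoint_left.1 x1 h (mem_union_left _ k)⟩
    · exact ⟨h.1, fun k => h.2 (by simp [k])⟩
  · rw [s2, deg_union (x1.symm.mono_left
      ((sdiff_subset.trans sdiff_subset).trans subset_union_right)), ← sdiff_inter_self_left,
      deg_sdiff inter_subset_left, deg_sdiff r5]
    simp only [deg_add]
    linear_combination r4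

end PlexL
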