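import Pool.Agent.Lib.MP_3d3eb4_co.PL.Defs

/-! Gadgets of logarithmic length that move pairs of lines along prescribed diagonals. -/

namespace PlexL

open Finset

set_option linter.unusedSectionVars false

section Gen

variable {G : Type} [AddCommGroup G] [DecidableEq G]

/-- `w` is the effect of adding at most `p` cells and removing cells on the diagonals `J` -/
def Rea (σ : G) (J : Finset G) (p : ℕ) (w : Fin 3 × G → ℤ) : Prop :=
  ∃ (A : Multiset (G × G)) (R : Finset (G × G)), (∀ x ∈ A, Off σ x) ∧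
    (∀ x ∈ R, Off σ x ∧ x.2 - x.1 ∈ J) ∧ A.card ≤ p ∧ deg A - deg R.val = w

variable {σ : G} {J J' : Finset G} {p p' : ℕ} {w w' : Fin 3 × G → ℤ}

theorem Rea.zero : Rea σ J p 0 := ⟨0, ∅, by simp, by simp, by simp, by simp⟩

theorem Rea.mono (h : Rea σ J p w) (hJ : J ⊆ J') (hp : p ≤ p') : Rea σ J' p' w := by
  obtain ⟨A, R, h1, h2, h3, h4⟩ := h
  exact ⟨A, R, h1, fun x hx => ⟨(h2 x hx).1, hJ (h2 x hx).2⟩, h3.trans hp, h4⟩

theorem Rea.add (h : Rea σ J p w) (h' : Rea σ J' p' w') (hd : Disjoint J J') :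
    Rea σ (J ∪ J') (p + p') (w + w') := by
  obtain ⟨A, R, h1, h2, h3, h4⟩ := h
  obtain ⟨A', R', h1', h2', h3', h4'⟩ := h'
  refine ⟨A + A', R ∪ R', fun x hx => (Multiset.mem_add.1 hx).elim (h1 x) (h1' x),
    fun x hx => (mem_union.1 hx).elim (fun k => ⟨(h2 x k).1, mem_union_left _ (h2 x k).2⟩)
      fun k => ⟨(h2' x k).1, mem_union_right _ (h2' x k).2⟩,
    by rw [Multiset.card_add]; omega, ?_⟩
  rw [deg_add, deg_union (disjoint_left.2 fun x hx hx' =>
    disjoint_left.1 hd (h2 x hx).2 (h2' x hx').2), ← h4, ← h4']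
  abel

theorem Rea.one {x y : G × G} (hx : Off σ x) (hy : Off σ y) (hJ : y.2 - y.1 ∈ J)
    (hw : vec x - vec y = w) : Rea σ J 1 w :=
  ⟨{x}, {y}, by simpa using hx, by simpa using ⟨hy, hJ⟩, by simp, by simpa using hw⟩

/-- the line `a` is to be lowered, the line `b` raised -/
def pr (i : Fin 3) (a b : G) : Fin 3 × G → ℤ := ev i b - ev i a

/-- rows and columns alternate -/
def ty (i : ℕ) : Fin 3 := if Even i then 0 else 1

/-- the sign of a step -/
def sg (i : ℕ) (x : G) : G := if Even i then x else -x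

theorem step (i : ℕ) {a a' δ : G} (h1 : a ≠ 0) (h2 : a ≠ δ) (h3 : a' ≠ 0) (h4 : a' ≠ δ)
    (h5 : a' ≠ σ + δ - a) (hJ : sg i (a' - δ - a) ∈ J) :
    Rea σ J 1 (pr (ty i) a (a - δ) - pr (ty (i + 1)) a' (a' - δ)) := by
  have e1 : a - δ + a' ≠ σ := fun h => h5 (by rw [← h]; abel)
  have e2 : a + (a' - δ) = a - δ + a' := by abel
  by_cases hi : Even i
  · refine Rea.one (x := (a - δ, a')) (y := (a, a' - δ)) ⟨sub_ne_zero.2 h2, h3, e1⟩
      ⟨h1, sub_ne_zero.2 h4, e2 ▸ e1⟩ (by simpa [sg, hi] using hJ) ?_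
    simp only [vec, pr, ty, hi, Nat.even_add_one, not_true, if_true, if_false, e2]
    abel
  · refine Rea.one (x := (a', a - δ)) (y := (a' - δ, a))
      ⟨h3, sub_ne_zero.2 h2, by rwa [add_comm]⟩
      ⟨sub_ne_zero.2 h4, h1, by rw [add_comm]; exact e2 ▸ e1⟩ (by simpa [sg, hi] using hJ) ?_
    simp only [vec, pr, ty, hi, Nat.even_add_one, not_false_iff, if_true, if_false,
      add_comm (a' - δ) a, add_comm a' (a - δ), e2]
    abel

theorem avoid (f : ℕ → G) (k : ℕ) (hf : ∀ i < k, ∀ j < k, f i = f j → i = j) (S : Finset G)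
    (h : S.card < k) : ∃ j < k, f j ∉ S := by
  by_contra hc
  push Not at hc
  have := card_le_card_of_injOn (s := range k) (t := S) f (fun j hj => hc j (by simpa using hj))
    fun i hi j hj => hf i (by simpa using hi) j (by simpa using hj)
  rw [card_range] at this
  omega

/-- a set of diagonals that can move one pair of rows or turn any pair into a pair of rows -/
def Kit (σ : G) (K : Finset G) (T : ℕ) : Prop :=
  (∀ a a' δ, a ≠ 0 → a ≠ δ → a' ≠ 0 → a' ≠ δ → Rea σ K T (pr 0 a (a - δ) - pr 0 a' (a' - δ))) ∧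
  ∀ i a b, a ≠ zr σ i → b ≠ zr σ i → ∃ a' b', a' ≠ 0 ∧ b' ≠ 0 ∧ Rea σ K T (pr i a b - pr 0 a' b')

theorem dis_range {K : ℕ → Finset G} {k : ℕ} (h : ∀ i < k, Disjoint (K k) (K i)) :
    Disjoint ((range k).biUnion K) (K k) :=
  (disjoint_biUnion_left _ _ _).2 fun i hi => (h i (mem_range.1 hi)).symm

theorem un_succ (K : ℕ → Finset G) (k : ℕ) :
    (range (k + 1)).biUnion K = (range k).biUnion K ∪ K k := by
  rw [range_add_one, biUnion_insert, union_comm]

variable [Fintype G]

theorem Rea.dft (h : Rea σ J p w) : dft w = 0 := by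
  obtain ⟨A, R, -, -, -, rfl⟩ := h
  rw [dft_sub, dft_deg, dft_deg, sub_self]

/-- all but one pair of rows is realised with the first `3 * n` kits -/
def Acc (σ : G) (K : ℕ → Finset G) (T n : ℕ) (w : Fin 3 × G → ℤ) : Prop :=
  ∃ a b, a ≠ 0 ∧ b ≠ 0 ∧ Rea σ ((range (3 * n)).biUnion K) (3 * n * T) (w - pr 0 a b)

variable {K : ℕ → Finset G} {T N : ℕ}

theorem Acc.step (hG : 3 < Fintype.card G) (hK : ∀ g, Kit σ (K g) T)
    (hd : ∀ g < 3 * N, ∀ g' < g, Disjoint (K g) (K g')) {n : ℕ} (hn : n < N) (h : Acc σ K T n w)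
    {i : Fin 3} {a₂ b₂ : G} (ha : a₂ ≠ zr σ i) (hb : b₂ ≠ zr σ i) :
    Acc σ K T (n + 1) (w + pr i a₂ b₂) := by
  obtain ⟨a, b, h1, h2, h3⟩ := h
  obtain ⟨a₃, b₃, h4, h5, h6⟩ := (hK (3 * n)).2 i a₂ b₂ ha hb
  obtain ⟨x, -, hx⟩ := exists_mem_notMem_of_card_lt_card (s := {0, a - b, -(a₃ - b₃)})
    (t := (univ : Finset G)) (lt_of_le_of_lt card_le_three hG)
  simp only [mem_insert, mem_singleton, not_or] at hx
  have h7 := (hK (3 * n + 1)).1 a x (a - b) h1 (fun e => h2 (by simpa using e.symm)) hx.1 hx.2.1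
  have h8 := (hK (3 * n + 2)).1 a₃ (x + (a₃ - b₃)) (a₃ - b₃) h4 (fun e => h5 (by simpa using e.symm))
    (fun e => hx.2.2 (eq_neg_of_add_eq_zero_left e)) (fun e => hx.1 (by simpa using e))
  refine ⟨x + (a₃ - b₃), x - (a - b), fun e => hx.2.2 (eq_neg_of_add_eq_zero_left e),
    sub_ne_zero.2 hx.2.1, ?_⟩
  have h9 := h3.add h6 (dis_range (hd _ (by omega)))
  rw [← un_succ] at h9
  have h10 := h9.add h7 (dis_range (hd _ (by omega)))
  rw [← un_succ] at h10
  have h11 := h10.add h8 (dis_range (hd (3 * n + 2) (by omega)))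
  rw [← un_succ] at h11
  refine Rea.mono (J := (range (3 * n + 2 + 1)).biUnion K) ?_ subset_rfl
    (show 3 * n * T + T + T + T ≤ _ from le_of_eq (by ring))
  convert h11 using 1
  simp only [pr, sub_sub_cancel, add_sub_cancel_right]; abel

theorem Acc.type (hG : 3 < Fintype.card G) (hK : ∀ g, Kit σ (K g) T)
    (hd : ∀ g < 3 * N, ∀ g' < g, Disjoint (K g) (K g')) (i : Fin 3) (P : Multiset G) :
    ∀ (Q : Multiset G) (n : ℕ) (w : Fin 3 × G → ℤ), P.card = Q.card → zr σ i ∉ P → zr σ i ∉ Q →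
      n + P.card ≤ N → Acc σ K T n w → Acc σ K T (n + P.card) (w + (ind i P - ind i Q)) := by
  induction P using Multiset.induction_on with
  | empty =>
    intro Q n w h _ _ _ H
    obtain rfl : Q = 0 := Multiset.card_eq_zero.1 h.symm
    simpa using H
  | cons b P ih =>
    intro Q n w h h1 h2 h3 H
    rw [Multiset.card_cons] at h h3 ⊢
    obtain ⟨a, ha⟩ := Multiset.card_pos_iff_exists_mem.1 (show 0 < Q.card by omega)
    obtain ⟨Q, rfl⟩ := Multiset.exists_cons_of_mem ha
    rw [Multiset.card_cons] at h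
    simp only [Multiset.mem_cons, not_or] at h1 h2
    have := ih Q (n + 1) _ (by omega) h1.2 h2.2 (by omega)
      (H.step hG hK hd (by omega) (Ne.symm h2.1) (Ne.symm h1.1))
    convert this using 1
    · ring
    · simp only [ind_cons, pr]; abel

theorem fix_all (hG : 3 < Fintype.card G) (hK : ∀ g, Kit σ (K g) T)
    (hd : ∀ g < 3 * N, ∀ g' < g, Disjoint (K g) (K g')) (P Q : Fin 3 → Multiset G) (k : ℕ)
    (hP : ∀ i, (P i).card = k) (hQ : ∀ i, (Q i).card = k) (hk : 3 * k ≤ N)
    (hz : ∀ i, (P i).count (zr σ i) = (Q i).count (zr σ i))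
    (h0 : dft (∑ i, ind i (P i) - ∑ i, ind i (Q i)) = 0) :
    Rea σ ((range (3 * N)).biUnion K) (3 * N * T) (∑ i, ind i (P i) - ∑ i, ind i (Q i)) := by
  have sp : ∀ (M : Multiset G) (z : G), M = M.filter (· ≠ z) + Multiset.replicate (M.count z) z :=
    fun M z => by
      rw [← Multiset.filter_eq', add_comm]
      exact (Multiset.filter_add_not _ M).symm
  have st : ∀ i n w, n + k ≤ N → Acc σ K T n w →
      ∃ n' ≤ n + k, Acc σ K T n' (w + (ind i (P i) - ind i (Q i))) := by
    intro i n w hn H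
    have c1 := congrArg Multiset.card (sp (P i) (zr σ i))
    have c2 := congrArg Multiset.card (sp (Q i) (zr σ i))
    rw [Multiset.card_add, Multiset.card_replicate] at c1 c2
    rw [hP, hz] at c1
    rw [hQ] at c2
    refine ⟨n + ((P i).filter (· ≠ zr σ i)).card, by omega, ?_⟩
    convert Acc.type hG hK hd i ((P i).filter (· ≠ zr σ i)) ((Q i).filter (· ≠ zr σ i)) n w
      (by omega) (by simp) (by simp) (by omega) H using 2
    conv_lhs => rw [sp (P i) (zr σ i), sp (Q i) (zr σ i), hz]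
    simp only [ind_add]
    abel
  obtain ⟨x, -, hx⟩ := exists_mem_notMem_of_card_lt_card (s := {0}) (t := (univ : Finset G))
    (by rw [card_singleton, card_univ]; omega)
  have h1 : Acc σ K T 0 0 := ⟨x, x, by simpa using hx, by simpa using hx, by
    simpa [pr] using Rea.zero⟩
  obtain ⟨n1, a1, h1⟩ := st 0 _ _ (by omega) h1
  obtain ⟨n2, a2, h1⟩ := st 1 _ _ (by omega) h1
  obtain ⟨n3, a3, a, b, -, -, h1⟩ := st 2 _ _ (by omega) h1
  have e : 0 + (ind 0 (P 0) - ind 0 (Q 0)) + (ind 1 (P 1) - ind 1 (Q 1)) +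
      (ind 2 (P 2) - ind 2 (Q 2)) = ∑ i, ind i (P i) - ∑ i, ind i (Q i) := by
    simp only [Fin.sum_univ_three]; abel
  rw [e] at h1
  have h2 := h1.dft
  rw [dft_sub, h0, pr, dft_sub, dft_ev0, dft_ev0, zero_sub, neg_eq_zero, sub_eq_zero] at h2
  rw [h2, pr, sub_self, sub_zero] at h1
  exact h1.mono (biUnion_subset_biUnion_of_subset_left _ (range_mono (by omega)))
    (Nat.mul_le_mul_right _ (by omega))

/-- translates of small sets can be made disjoint -/
theorem greedy (P : ℕ → Finset G) (F : Finset G) (π : ℕ) (hP : ∀ i, (P i).card ≤ π) (N : ℕ)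
    (h : π * (F.card + N * π) < Fintype.card G) : ∃ β : ℕ → G, ∀ i < N,
      Disjoint ((P i).image (β i + ·)) F ∧
      ∀ j < i, Disjoint ((P i).image (β i + ·)) ((P j).image (β j + ·)) := by
  induction N with
  | zero => exact ⟨0, by simp⟩
  | succ N ih =>
    obtain ⟨β, hβ⟩ := ih (lt_of_le_of_lt (by gcongr; omega) h)
    set F' := F ∪ (range N).biUnion fun j => (P j).image (β j + ·) with hF'
    have h1 : F'.card ≤ F.card + N * π := (card_union_le _ _).trans (Nat.add_le_add_left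
      ((card_biUnion_le_card_mul _ _ π fun j _ => card_image_le.trans (hP j)).trans (by simp)) _)
    obtain ⟨x, -, hx⟩ := exists_mem_notMem_of_card_lt_card
      (s := image₂ (fun u v => v - u) (P N) F') (t := univ)
      (lt_of_le_of_lt ((card_image₂_le _ _ _).trans (Nat.mul_le_mul (hP N) h1))
        (lt_of_le_of_lt (by gcongr; omega) h))
    have h2 : Disjoint ((P N).image (x + ·)) F' := disjoint_left.2 fun v hv hv' => by
      obtain ⟨u, hu, rfl⟩ := mem_image.1 hv
      exact hx (mem_image₂.2 ⟨u, hu, _, hv', by simp⟩)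
    refine ⟨Function.update β N x, fun i hi => ?_⟩
    rcases Nat.lt_succ_iff_lt_or_eq.1 hi with hi | rfl
    · rw [Function.update_of_ne hi.ne]
      refine ⟨(hβ i hi).1, fun j hj => ?_⟩
      rw [Function.update_of_ne (by omega)]
      exact (hβ i hi).2 j hj
    · rw [Function.update_self]
      refine ⟨h2.mono_right subset_union_left, fun j hj => ?_⟩
      rw [Function.update_of_ne hj.ne]
      exact h2.mono_right ((subset_biUnion_of_mem (fun j => (P j).image (β j + ·))
        (mem_range.2 hj)).trans subset_union_right)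

end Gen

section Cyc

variable {m : ℕ} [NeZero m] {σ : ZMod m}

theorem cast_inj {x y : ℤ} (h : (x : ZMod m) = y) (h1 : x - y < m) (h2 : y - x < m) : x = y := by
  have := (ZMod.intCast_eq_intCast_iff_dvd_sub x y m).1 h
  have := Int.eq_zero_of_abs_lt_dvd this (abs_lt.2 ⟨by omega, h2⟩)
  omega

/-- the digits allowed in step `i` -/
noncomputable def pat (s i : ℕ) : Finset ℤ :=
  if i < s then (Icc 0 7).image (· * 2 ^ i) else if i = s then (Icc (-7) 16).image (· * 2 ^ s)
  else Icc 0 51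

theorem card_pat (s i : ℕ) : (pat s i).card ≤ 52 := by
  unfold pat
  split_ifs
  · exact card_image_le.trans (by simp)
  · exact card_image_le.trans (by simp)
  · simp

/-- the diagonals of step `i` -/
noncomputable def dia (s : ℕ) (β : ℕ → ZMod m) (i : ℕ) : Finset (ZMod m) :=
  ((pat s i).image fun x : ℤ => sg i (x : ZMod m)).image (β i + ·)

theorem mem_dia {s i : ℕ} {β : ℕ → ZMod m} {x : ℤ} (hx : x ∈ pat s i) {z : ZMod m}
    (hz : z = sg i (β i) + x) : sg i z ∈ dia s β i := by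
  refine mem_image.2 ⟨_, mem_image_of_mem _ hx, ?_⟩
  rw [hz]
  unfold sg
  split_ifs <;> abel

theorem digits {s : ℕ} (hm : 2 ^ (s + 2) ≤ m) {β : ℕ → ZMod m}
    (hd : ∀ i < s + 2, ∀ j < i, Disjoint (dia s β i) (dia s β j)) {a δ : ZMod m} (h1 : a ≠ 0)
    (h2 : a ≠ δ) (t : ℤ) (ht : -7 ≤ t) (k : ℕ) (hk : k ≤ s) : ∀ B : ℤ, t ≤ B * 2 ^ k →
    ∃ (a' : ZMod m) (e : ℤ), a' ≠ 0 ∧ a' ≠ δ ∧ -7 ≤ e ∧ e ≤ B ∧
      Rea σ ((range k).biUnion (dia s β)) k (pr 0 a (a - δ) - pr (ty k) a' (a' - δ)) ∧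
      a' = a + ∑ i ∈ range k, (δ + sg i (β i)) + (t - e * 2 ^ k : ℤ) := by
  induction k with
  | zero =>
    intro B hB
    exact ⟨a, t, h1, h2, ht, by simpa using hB, by simpa [ty] using Rea.zero, by simp⟩
  | succ k ih =>
    intro B hB
    obtain ⟨a', e, a1, a2, a3, a4, a5, a6⟩ := ih (by omega) (2 * B) (by rw [pow_succ] at hB; linarith)
    have hp : (0 : ℤ) < 2 ^ k := by positivity
    have hm' : (8 : ℤ) * 2 ^ k ≤ m := by
      have : 2 ^ (k + 3) ≤ m := (Nat.pow_le_pow_right (by norm_num) (by omega)).trans hm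
      have : ((2 ^ (k + 3) : ℕ) : ℤ) ≤ m := by exact_mod_cast this
      push_cast at this
      linarith [pow_add (2 : ℤ) k 3]
    obtain ⟨j, hj, hj'⟩ := avoid
      (fun j => a' + δ + sg k (β k) + (((e % 2 + 2 * j) * 2 ^ k : ℤ) : ZMod m)) 4
      (fun i hi j hj h => by
        have hi' : (i : ℤ) < 4 := by exact_mod_cast hi
        have hj' : (j : ℤ) < 4 := by exact_mod_cast hj
        have := mul_right_cancel₀ hp.ne' (cast_inj (add_left_cancel h)
          (by nlinarith [Int.natCast_nonneg j]) (by nlinarith [Int.natCast_nonneg i]))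
        omega) {0, δ, σ + δ - a'} (lt_of_le_of_lt card_le_three (by norm_num))
    simp only [mem_insert, mem_singleton, not_or] at hj'
    refine ⟨_, (e - (e % 2 + 2 * j)) / 2, hj'.1, hj'.2.1, by omega, by omega, ?_, ?_⟩
    · rw [un_succ]
      convert a5.add (step k a1 a2 hj'.1 hj'.2.1 hj'.2.2 (mem_dia (x := (e % 2 + 2 * j) * 2 ^ k)
        (by rw [pat, if_pos (by omega)]; exact mem_image_of_mem _ (mem_Icc.2 (by omega)))
        (by abel))) (dis_range (hd k (by omega))) using 1
      abel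
    · have : t - (e - (e % 2 + 2 * j)) / 2 * 2 ^ (k + 1) =
          t - e * 2 ^ k + (e % 2 + 2 * j) * 2 ^ k := by
        have : (e - (e % 2 + 2 * j)) / 2 * 2 = e - (e % 2 + 2 * j) := by omega
        rw [pow_succ', ← mul_assoc, this]; ring
      rw [this, a6, sum_range_succ, Int.cast_add (t - e * 2 ^ k)]
      abel

theorem card_half (S : Finset (ZMod m)) :
    (univ.filter fun x : ZMod m => x + x ∈ S).card ≤ 2 * S.card := by
  refine card_le_mul_card_image_of_maps_to (f := fun x => x + x) (fun x hx => (mem_filter.1 hx).2)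
    2 fun b _ => ?_
  rcases ((univ.filter fun x : ZMod m => x + x ∈ S).filter fun x => x + x = b).eq_empty_or_nonempty
    with h | ⟨y, h⟩
  · rw [h]; simp
  refine le_trans (card_le_card_of_injOn (fun x => x - y) (fun x hx => ?_)
    (fun x _ x' _ e => sub_left_injective e))
    (IsAddCyclic.card_nsmul_eq_zero_le (α := ZMod m) (n := 2) (by norm_num))
  have h1 := (mem_filter.1 h).2
  have h2 := (mem_filter.1 (mem_coe.1 hx)).2
  exact mem_coe.2 (mem_filter.2 ⟨mem_univ _, by linear_combination h2 - h1⟩)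

theorem nat_inj {k : ℕ} (hk : k ≤ m) : ∀ i < k, ∀ j < k, (i : ZMod m) = j → i = j :=
  fun i hi j hj h => by
    have := cast_inj (m := m) (x := i) (y := j) (by simpa using h) (by omega) (by omega)
    omega

theorem kit {s : ℕ} (hs : Even s) (hs' : 4 ≤ s) (hm : 2 ^ (s + 2) ≤ m) (hm' : m ≤ 2 ^ (s + 4))
    {β : ℕ → ZMod m} (hd : ∀ i < s + 2, ∀ j < i, Disjoint (dia s β i) (dia s β j)) :
    Kit σ ((range (s + 2)).biUnion (dia s β)) (s + 2) := by
  have h64 : 64 ≤ m := le_trans (Nat.pow_le_pow_right (n := 2) (by norm_num) (by omega : 6 ≤ s + 2)) hm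
  have sub0 : dia s β 0 ⊆ (range (s + 2)).biUnion (dia s β) :=
    subset_biUnion_of_mem _ (mem_range.2 (by omega))
  have m0 : ∀ d : ℕ, d < 8 → β 0 + d ∈ dia s β 0 := fun d hd => by
    have := mem_dia (β := β) (s := s) (i := 0) (x := d) (by
      rw [pat, if_pos (by omega)]; exact mem_image.2 ⟨d, mem_Icc.2 (by omega), by simp⟩) rfl
    simpa [sg] using this
  refine ⟨fun a a' δ h1 h2 h3 h4 => ?_, fun i a b ha hb => ?_⟩
  · obtain ⟨j, hj, hj'⟩ := avoid (fun j => a' - δ - sg (s + 1) (β (s + 1)) - (j : ZMod m)) 52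
      (fun i hi j hj h => nat_inj (by omega) i hi j hj (sub_right_injective h))
      ({0, δ, σ + δ - a'} ∪ univ.filter fun x : ZMod m => x + x ∈ (Icc (-7 : ℤ) 16).image
        fun e => σ + δ + δ + sg s (β s) + ((e * 2 ^ s : ℤ) : ZMod m))
      (lt_of_le_of_lt ((card_union_le _ _).trans (add_le_add card_le_three ((card_half _).trans
        (Nat.mul_le_mul_left 2 card_image_le)))) (by simp))
    set x := a' - δ - sg (s + 1) (β (s + 1)) - (j : ZMod m) with hx
    simp only [mem_union, mem_insert, mem_singleton, mem_filter, mem_univ, true_and, not_or] at hj'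
    set τ := x - δ - sg s (β s) - (a + ∑ i ∈ range s, (δ + sg i (β i))) with hτ
    obtain ⟨z, e, a1, a2, a3, a4, a5, a6⟩ := digits (σ := σ) hm hd h1 h2 τ.val (by omega) s le_rfl 16
      (by
        have : τ.val ≤ 16 * 2 ^ s := by
          have := ZMod.val_lt τ
          rw [pow_add] at hm'
          omega
        exact_mod_cast this)
    have a7 : x - δ - z = sg s (β s) + ((e * 2 ^ s : ℤ) : ZMod m) := by
      rw [a6, Int.cast_sub, Int.cast_natCast, ZMod.natCast_zmod_val, hτ]; abel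
    have b1 := step (σ := σ) s a1 a2 hj'.1.1 hj'.1.2.1 (fun h => hj'.2 (mem_image.2
      ⟨e, mem_Icc.2 ⟨a3, a4⟩, by linear_combination -a7 - h⟩)) (mem_dia (β := β) (s := s) (by
        rw [pat, if_neg (by omega), if_pos rfl]; exact mem_image_of_mem _ (mem_Icc.2 ⟨a3, a4⟩)) a7)
    have b2 := step (σ := σ) (s + 1) hj'.1.1 hj'.1.2.1 h3 h4
      (fun h => hj'.1.2.2 (by linear_combination h)) (mem_dia (β := β) (s := s) (x := j) (by
        rw [pat, if_neg (by omega), if_neg (by omega)]; exact mem_Icc.2 (by omega))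
        (by rw [hx]; push_cast; abel))
    have b3 := a5.add b1 (dis_range (hd s (by omega)))
    rw [← un_succ] at b3
    have b4 := b3.add b2 (dis_range (hd (s + 1) (by omega)))
    rw [← un_succ] at b4
    convert b4 using 1
    rw [show ty (s + 1 + 1) = 0 from if_pos (hs.add even_two)]
    abel
  fin_cases i
  · exact ⟨a, b, ha, hb, by simpa using Rea.zero⟩
  · obtain ⟨j, hj, hj'⟩ := avoid (fun j => a + (a - b) - β 0 - (j : ZMod m)) 4
      (fun i hi j hj h => nat_inj (by omega) i hi j hj (sub_right_injective h))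
      {0, a - b, σ + (a - b) - a} (lt_of_le_of_lt card_le_three (by norm_num))
    simp only [mem_insert, mem_singleton, not_or] at hj'
    refine ⟨_, _, hj'.1, sub_ne_zero.2 hj'.2.1, Rea.mono ?_ sub0 (by omega : 1 ≤ s + 2)⟩
    have := step (σ := σ) (J := dia s β 0) 1 ha (fun e => hb (by simpa using e.symm)) hj'.1 hj'.2.1
      hj'.2.2 (by convert m0 j (by omega) using 1; simp only [sg]; norm_num; abel)
    simpa [ty] using this
  · set r : ZMod m := (((a - β 0).val / 2 : ℕ) : ZMod m) with hr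
    set e := (a - β 0).val % 2 with he
    have h1 : r + r + e = a - β 0 := by
      rw [hr, ← Nat.cast_add, ← Nat.cast_add, show (a - β 0).val / 2 + (a - β 0).val / 2 + e =
        (a - β 0).val by omega, ZMod.natCast_zmod_val]
    obtain ⟨j, hj, hj'⟩ := avoid (fun j => (j : ZMod m)) 4 (nat_inj (by omega))
      {r, -(r + β 0 + e), r + b - a} (lt_of_le_of_lt card_le_three (by norm_num))
    simp only [mem_insert, mem_singleton, not_or] at hj'
    have c1 : r - j ≠ 0 := sub_ne_zero.2 (Ne.symm hj'.1)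
    have c2 : r + β 0 + e + j ≠ 0 := fun h => hj'.2.1 (by linear_combination h)
    have c3 : r - j + b - a ≠ 0 := fun h => hj'.2.2 (by linear_combination -h)
    have e1 : r - j + (r + β 0 + e + j) = a := by linear_combination h1
    have e2 : r - j + b - a + (r + β 0 + e + j) = b := by linear_combination h1
    refine ⟨_, _, c3, c1, Rea.mono ?_ sub0 (by omega : 1 ≤ s + 2)⟩
    refine Rea.one (x := (r - j + b - a, r + β 0 + e + j)) (y := (r - j, r + β 0 + e + j))
      ⟨c3, c2, by rw [e2]; exact hb⟩ ⟨c1, c2, by rw [e1]; exact ha⟩ ?_ ?_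
    · convert m0 (e + 2 * j) (by omega) using 1
      push_cast; ring
    · simp only [vec, pr, e1, e2]
      change _ = ev 2 b - ev 2 a - _
      abel

/-- a small set all of whose translates are kits -/
theorem exists_kit {s : ℕ} (hs : Even s) (hs' : 4 ≤ s) (hm : 2 ^ (s + 2) ≤ m)
    (hm' : m ≤ 2 ^ (s + 4)) (hb : 52 * ((s + 2) * 52) < m) : ∃ K : Finset (ZMod m),
      K.card ≤ (s + 2) * 52 ∧ ∀ y, Kit σ (K.image (y + ·)) (s + 2) := by
  have hc : ∀ i, ((pat s i).image fun x : ℤ => sg i (x : ZMod m)).card ≤ 52 :=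
    fun i => card_image_le.trans (card_pat s i)
  obtain ⟨β, hβ⟩ := greedy _ ∅ 52 hc (s + 2) (by simpa [ZMod.card] using hb)
  refine ⟨(range (s + 2)).biUnion (dia s β), (card_biUnion_le_card_mul _ _ 52 fun i _ =>
    card_image_le.trans (hc i)).trans (by simp), fun y => ?_⟩
  have e : ∀ i, (dia s β i).image (y + ·) = dia s (fun i => y + β i) i := fun i => by
    simp only [dia, image_image]
    exact image_congr fun x _ => by simp [add_assoc]
  rw [biUnion_image]
  simp only [e]
  refine kit hs hs' hm hm' fun i hi j hj => ?_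
  rw [← e, ← e, disjoint_image (add_right_injective y)]
  exact (hβ i hi).2 j hj

end Cyc

end PlexL
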