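import Pool.Agent.Lib.MP_3d3eb4_co.PL.Complete
import Pool.Agent.Lib.MP_3d3eb4_co.Main

/-! Indivisible plexes of all orders up to `n - C (log n)^3`. -/

namespace PlexL

open Finset Pool.Agent.Lib.MP_3d3eb4_co

theorem cnt_univ {m : ℕ} [NeZero m] (l : Fin 3 × ZMod m) :
    cnt (univ : Finset (ZMod m × ZMod m)).val l = m := by
  obtain ⟨i, a⟩ := l
  have e : dg (univ : Finset (ZMod m)) = univ := by simp [dg]
  fin_cases i
  · simpa [e, ZMod.card] using cnt_dg0 univ a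
  · simpa [e, ZMod.card] using cnt_dg1 univ a
  · refine Eq.trans ?_ (card_univ.trans (ZMod.card m))
    rw [cnt_val]
    refine card_bij' (fun x _ => x.1) (fun r _ => (r, a - r)) (by simp) (by simp) ?_ (by simp)
    intro x hx
    have : x.1 + x.2 = a := (mem_filter.1 hx).2
    simp [← this]

theorem dft_ind {G : Type} [AddCommGroup G] [DecidableEq G] [Fintype G] (M : Fin 3 → Multiset G) :
    dft (∑ i, ind i (M i)) = (M 0).sum + (M 1).sum - (M 2).sum := by
  have h : ∀ N : Multiset G, ∑ a, ((N.count a : ℕ) : ℤ) • a = N.sum := fun N => by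
    simp only [natCast_zsmul]
    exact (Finset.sum_multiset_count_of_subset N univ (subset_univ _)).symm
  simp only [dft, sum_ind_apply, h]

theorem near_plex (n k D : ℕ) (σ : ZMod (n + 1)) {s : ℕ} (hs : Even s) (hs' : 4 ≤ s)
    (hm : 2 ^ (s + 2) ≤ n + 1) (hm' : n + 1 ≤ 2 ^ (s + 4))
    (U : Finset (ZMod (n + 1) × ZMod (n + 1))) (hU : ∀ l, cnt U.val l ≤ D)
    (x : Fin 3 → ZMod (n + 1)) (hx : ∀ i, x i ≠ zr σ i)
    (hw : x 2 - x 0 - x 1 = k • ((univ.erase σ).val.sum - (univ.erase (0 : ZMod (n + 1))).val.sum -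
      (univ.erase (0 : ZMod (n + 1))).val.sum))
    (hc : k + D + 1 + 100000000 * ((D + 4) * (s + 2)) ≤ n)
    (hc' : 100000000 * ((D + 4) * (s + 2) * (n - k)) ≤ n + 1) :
    ∃ K : Finset (ZMod (n + 1) × ZMod (n + 1)), (∀ q ∈ K, Off σ q ∧ q ∉ U) ∧
      ∀ i, K.val.map (co i) + {x i} = k • (univ.erase (zr σ i)).val := by
  obtain ⟨Y, hY⟩ : ∃ Y : Finset (ZMod (n + 1) × ZMod (n + 1)), Y = univ.filter (Off σ) \ U :=
    ⟨_, rfl⟩
  have y0 : ∀ q, q ∈ Y ↔ Off σ q ∧ q ∉ U := fun q => by simp [hY]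
  have y1 : ∀ l, cnt Y.val l ≤ n + 1 := fun l => (cnt_subset (subset_univ _) l).trans (cnt_univ l).le
  have y2 : ∀ i a, a ≠ zr σ i → n + 1 ≤ cnt Y.val (i, a) + D + 2 := fun i a ha => by
    have d1 := cnt_filter_off σ univ i a ha
    have d2 := (cnt_subset (K := univ.filter (Off σ)) (K' := univ.filter (Off σ) \ U ∪ U)
      (by rw [sdiff_union_self_eq_union]; exact subset_union_left) (i, a)).trans
      (cnt_union_le _ _ _)
    rw [cnt_univ] at d1
    rw [← hY] at d2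
    have := hU (i, a)
    omega
  have y3 : ∀ i, cnt Y.val (i, zr σ i) = 0 := cnt_off fun q hq => ((y0 q).1 hq).1
  have e0 : ∀ i a, (k • (univ.erase (zr σ i)).val).count a = if a = zr σ i then 0 else k :=
    fun i a => by
      rw [Multiset.count_nsmul, Multiset.count_eq_of_nodup (univ.erase _).nodup]
      simp only [mem_val, mem_erase, mem_univ, and_true, ite_not, mul_ite, mul_zero, mul_one]
  have e1 : ∀ i a, (Y.val.map (co i) + {x i}).count a =
      cnt Y.val (i, a) + if a = x i then 1 else 0 := fun i a => by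
    rw [Multiset.count_add, count_map_co, Multiset.count_singleton]
  have e2 : ∀ i, k • (univ.erase (zr σ i)).val ≤ Y.val.map (co i) + {x i} := fun i =>
    Multiset.le_iff_count.2 fun a => by
      rw [e0, e1]
      split_ifs with h
      · simp
      · simp
      all_goals
        have := y2 i a h
        omega
  obtain ⟨X, x1, x2⟩ := complete σ hs hs' hm hm' U (D + 3) (n - k - D - 1) (Y.card + 1 - k * n)
    (fun l => (hU l).trans (by omega))
    (fun i => Y.val.map (co i) + {x i} - k • (univ.erase (zr σ i)).val)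
    (fun i => Multiset.count_eq_zero.1 (by
      rw [Multiset.count_sub, e1, y3, if_neg (hx i).symm]; simp))
    (fun i a h => by
      rw [Multiset.count_sub, e0, e1, if_neg h]
      have := y2 i a h
      omega)
    (fun i a => by
      rw [Multiset.count_sub, e0, e1]
      have := y1 (i, a)
      have := y3 i
      have := hx i
      split_ifs with h h' h'
      · exact absurd (h.symm.trans h') this
      · omega
      · subst h'; omega
      · omega)
    (fun i => by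
      rw [Multiset.card_sub (e2 i)]
      simp [ZMod.card])
    (by
      have h1 : ∀ i, (Y.val.map (co i) + {x i} - k • (univ.erase (zr σ i)).val).sum =
          (Y.val.map (co i)).sum + x i - k • (univ.erase (zr σ i)).val.sum := fun i => by
        have := congrArg Multiset.sum (Multiset.sub_add_cancel (e2 i))
        rw [Multiset.sum_add, Multiset.sum_add, Multiset.sum_nsmul, Multiset.sum_singleton] at this
        exact eq_sub_of_add_eq this
      have h2 := dft_deg Y.val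
      rw [deg_eq_ind, dft_ind] at h2
      rw [dft_ind, h1, h1, h1]
      simp only [zr_zero, zr_one, zr_two, smul_sub] at hw ⊢
      linear_combination h2 - hw)
    (Nat.le_sub_of_add_le (Nat.le_sub_of_add_le (Nat.le_sub_of_add_le
      (le_of_eq_of_le (by ring) hc))))
    ((Nat.mul_le_mul_left _ (Nat.mul_le_mul_left _
      ((Nat.sub_le _ _).trans (Nat.sub_le _ _)))).trans hc')
  have x3 : X ⊆ Y := fun q hq => (y0 q).2 (x1 q hq)
  refine ⟨Y \ X, fun q hq => (y0 q).1 (mem_sdiff.1 hq).1, fun i => Multiset.ext.2 fun a => ?_⟩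
  have f1 := congrFun (deg_sdiff x3) (i, a)
  have f2 := Multiset.le_iff_count.1 (e2 i) a
  rw [x2] at f1
  simp only [Pi.sub_apply, deg_apply, sum_ind_apply, Multiset.count_sub, e1] at f1 f2
  rw [Multiset.count_add, count_map_co, Multiset.count_singleton]
  omega

theorem cube_bound (L : ℕ) (hL : 132 ≤ L) : 6 * 10 ^ 23 * (L + 1) ^ 3 ≤ 2 ^ L := by
  induction L, hL using Nat.le_induction with
  | base => norm_num
  | succ L hL ih =>
    have : (L + 1 + 1) ^ 3 ≤ 2 * (L + 1) ^ 3 := by nlinarith [Nat.zero_le (L ^ 2), Nat.zero_le (L ^ 3)]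
    rw [pow_succ 2]
    omega

theorem near_nat (n k ℓ Y : ℕ) (hℓ : 25 ≤ ℓ) (h1 : 2 ^ ℓ ≤ n + 1) (h2 : n + 1 < 2 ^ (ℓ + 1))
    (hY : 11 * 10 ^ 17 * ℓ ^ 3 ≤ Y) (hY' : Y ≤ n + 1) (hk : k + 22 * 10 ^ 14 * ℓ ^ 3 ≤ n)
    (hk' : n - k ≤ 500 * ((n + 1) / Y)) :
    ∃ (L : Fin n → Fin n → Fin n) (P : Finset (Fin n × Fin n)),
      IsLatinSquare L ∧ IsIndivisiblePlex L k P := by
  obtain ⟨u, hu⟩ : ∃ u, u = 18 * (ℓ + 1) + 32 := ⟨_, rfl⟩
  have u1 : u ≤ 20 * ℓ := by omega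
  have u2 : u * u ≤ 400 * (ℓ * ℓ) := by nlinarith
  have u3 : u * (u * u) ≤ 8000 * ℓ ^ 3 := by nlinarith [Nat.mul_le_mul u1 u2]
  have u4 : u ≤ u * u := Nat.le_mul_self u
  have u5 : u * u ≤ u * (u * u) := Nat.mul_le_mul_left _ u4
  have u6 : 50 ≤ u := by omega
  set σ : ZMod (n + 1) := -(∑ x : ZMod (n + 1), x) - 1 with hσ
  have d1 := Nat.mul_div_le (n + 1) (1000 * u)
  have d2 := Nat.lt_mul_div_succ (n + 1) (show 0 < 1000 * u by omega)
  obtain ⟨f, U, r0, c0, f1, f2, f3, f4, hU, hr0, hc0, hw, v1, v2, v3⟩ :=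
    exists_square σ (k : ZMod (n + 1)) (ℓ + 1) (50000 * (u * u)) ((n + 1) / (1000 * u))
      (by positivity) (by rw [ZMod.card]; exact h2.le)
      (by rw [ZMod.card, ← hu]; nlinarith [Nat.mul_le_mul_left u d2.le, Nat.mul_le_mul_left u hY',
        Nat.mul_le_mul_left u u3, Nat.mul_le_mul_left u hY, Nat.mul_le_mul_left u u5])
      (by rw [ZMod.card, ← hu]; nlinarith)
  rw [← hu] at v1 v2 v3
  have hΦ : (univ.erase σ).val.sum - (univ.erase (0 : ZMod (n + 1))).val.sum -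
      (univ.erase (0 : ZMod (n + 1))).val.sum = 1 := by
    have e : ∀ z : ZMod (n + 1), (univ.erase z).val.sum = ∑ x : ZMod (n + 1), x - z := by
      intro z
      rw [← Finset.add_sum_erase univ (fun x => x) (mem_univ z), Finset.sum_eq_multiset_sum,
        Multiset.map_id']
      ring
    rw [e, e, hσ]; ring
  have w1 : (50000 * (u * u) + 40 * u + 4) * (2 * ((ℓ - 2) / 2) + 2) ≤ 21 * 10 ^ 6 * ℓ ^ 3 :=
    (Nat.mul_le_mul (show _ ≤ 21 * 10 ^ 6 * (ℓ * ℓ) by omega) (show _ ≤ ℓ by omega)).trans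
      (le_of_eq (by ring))
  have w2 : ℓ * ℓ ≤ ℓ ^ 3 := by nlinarith
  obtain ⟨K, k1, k2⟩ := near_plex n k (50000 * (u * u) + 40 * u) σ (s := 2 * ((ℓ - 2) / 2))
    (even_two_mul _) (by omega) ((Nat.pow_le_pow_right (by norm_num) (by omega)).trans h1)
    (h2.le.trans (Nat.pow_le_pow_right (by norm_num) (by omega))) U
    (fun l => by
      obtain ⟨i, a⟩ := l
      fin_cases i
      exacts [v1 a, v2 a, v3 a])
    ![r0, c0, f r0 c0] (fun i => by
      fin_cases i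
      exacts [hr0, hc0, f1 _ _ hr0 hc0])
    (by rw [hΦ, nsmul_one]; simp [hw]; ring) (by omega)
    (by
      refine le_trans ?_ (Nat.mul_div_le (n + 1) Y)
      refine le_trans (Nat.mul_le_mul_left _ (Nat.mul_le_mul w1 hk')) ?_
      refine le_trans ?_ (Nat.mul_le_mul_right _ hY)
      nlinarith [Nat.zero_le (ℓ ^ 3 * ((n + 1) / Y))])
  exact transfer n k (by omega) σ f f1 f2 f3 K r0 c0 hr0 hc0 (fun h => (k1 _ h).2 hU)
    (fun q hq => ⟨(k1 q hq).1.1, (k1 q hq).1.2.1,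
      f4 q (k1 q hq).2 (k1 q hq).1.1 (k1 q hq).1.2.1 (k1 q hq).1.2.2⟩) (k2 0) (k2 1) (k2 2) hw hΦ

theorem log_real (n k ℓ : ℕ) (hn : 2 ≤ n) (h : 2 ^ ℓ ≤ n + 1)
    (h2 : (k : ℝ) ≤ n - 22 * 10 ^ 14 * 27 * Real.log n ^ 3) : k + 22 * 10 ^ 14 * ℓ ^ 3 ≤ n := by
  have hn' : (2 : ℝ) ≤ n := by exact_mod_cast hn
  have b1 : (2 : ℝ) ^ ℓ ≤ (n : ℝ) ^ 2 := by
    have : (2 : ℝ) ^ ℓ ≤ n + 1 := by exact_mod_cast h
    nlinarith
  have b2 := Real.log_le_log (by positivity) b1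
  rw [Real.log_pow, Real.log_pow] at b2
  have b3 := Real.log_two_gt_d9
  have b4 : (0 : ℝ) ≤ ℓ := Nat.cast_nonneg _
  push_cast at b2
  have a4 : (ℓ : ℝ) ≤ 3 * Real.log n := by nlinarith
  have := pow_le_pow_left₀ b4 a4 3
  have : (k : ℝ) + 22 * 10 ^ 14 * (ℓ : ℝ) ^ 3 ≤ n := by linarith
  exact_mod_cast this

theorem top : ∃ (C : ℝ) (N : ℕ), ∀ n : ℕ, N ≤ n → ∀ k : ℕ, (n : ℝ) ^ (99 / 100 : ℝ) ≤ k →
    (k : ℝ) ≤ n - C * Real.log n ^ 3 →
    ∃ (L : Fin n → Fin n → Fin n) (P : Finset (Fin n × Fin n)),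
      IsLatinSquare L ∧ IsIndivisiblePlex L k P := by
  obtain ⟨c, hc⟩ : ∃ c : ℕ, 10 ^ 40 ≤ c := ⟨_, le_rfl⟩
  refine ⟨22 * 10 ^ 14 * 27, c ^ 80, fun n hn k h1 h2 => ?_⟩
  obtain ⟨Y, hm, hm', hcY⟩ := exists_Y n c hn
  have hY : 10 ^ 40 ≤ Y := hc.trans hcY
  have hY1 : 1 ≤ Y := le_trans (by norm_num) hY
  have hYn : Y ≤ n + 1 := (Nat.le_self_pow (by norm_num) Y).trans hm
  have hn1 : 2 ≤ n := Nat.le_of_succ_le_succ (le_trans (by norm_num) (hY.trans hYn))
  have key : ((500 * ((n + 1) / Y) : ℕ) : ℝ) ≤ (n : ℝ) ^ (99 / 100 : ℝ) := by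
    refine real_bound _ _ (pow_bound n Y _ 500 hY1 ((Nat.mul_div_le _ _).trans ?_) ?_ ?_)
    · clear hm hm' hn; omega
    · rw [← mul_pow]
      refine le_trans (Nat.le_succ n) (hm'.le.trans (Nat.pow_le_pow_left ?_ 80))
      clear hm hm' hn; omega
    · exact le_trans (by norm_num) (Nat.pow_le_pow_left hY 20)
  by_cases hk : k + 500 * ((n + 1) / Y) ≤ n
  · exact main_nat n k Y hY hm hm' (by exact_mod_cast key.trans h1) hk
  have a1 : 2 ^ Nat.log 2 (n + 1) ≤ n + 1 := Nat.pow_log_le_self 2 (Nat.succ_ne_zero n)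
  have a2 : 132 ≤ Nat.log 2 Y := Nat.le_log_of_pow_le (by norm_num) (le_trans (by norm_num) hY)
  have a3 : Nat.log 2 (n + 1) ≤ 80 * (Nat.log 2 Y + 1) := by
    refine (Nat.pow_le_pow_iff_right (by norm_num : 1 < 2)).1 (a1.trans ?_)
    rw [mul_comm, pow_mul]
    exact hm'.le.trans (Nat.pow_le_pow_left (Nat.lt_pow_succ_log_self (by norm_num) Y) _)
  refine near_nat n k (Nat.log 2 (n + 1)) Y
    (le_trans (by norm_num) (a2.trans (Nat.log_mono_right hYn))) a1
    (Nat.lt_pow_succ_log_self (by norm_num) _) ?_ hYn (log_real n k _ hn1 a1 h2)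
    (Nat.sub_le_iff_le_add'.2 (not_le.1 hk).le)
  refine le_trans ?_ ((cube_bound _ a2).trans (Nat.pow_log_le_self 2 (Nat.one_le_iff_ne_zero.1 hY1)))
  refine (Nat.mul_le_mul_left _ (Nat.pow_le_pow_left a3 3)).trans ?_
  rw [mul_pow, ← mul_assoc]
  exact Nat.mul_le_mul_right _ (by norm_num)

end PlexL
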